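import Mathlib

/-! # Finite isometry groups all of whose elements fix at most a line: basics -/

set_option autoImplicit false

namespace OL86

open Module

variable {V : Type*} [NormedAddCommGroup V] [InnerProductSpace ℝ V]

/-- the fixed vectors of an isometry -/
def fx (g : V ≃ₗᵢ[ℝ] V) : Submodule ℝ V where
  carrier := {v | g v = v}
  add_mem' := by
    intro a b ha hb
    simp only [Set.mem_setOf_eq] at *
    rw [map_add, ha, hb]
  zero_mem' := by simp
  smul_mem' := by
    intro c a ha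
    simp only [Set.mem_setOf_eq] at *
    rw [map_smul, ha]

theorem mem_fx {g : V ≃ₗᵢ[ℝ] V} {v : V} : v ∈ fx g ↔ g v = v := Iff.rfl

theorem mul_ap (g h : V ≃ₗᵢ[ℝ] V) (v : V) : (g * h) v = g (h v) := rfl

theorem one_ap (v : V) : (1 : V ≃ₗᵢ[ℝ] V) v = v := rfl

theorem inv_ap (g : V ≃ₗᵢ[ℝ] V) (v : V) : g⁻¹ (g v) = v := by
  rw [← mul_ap, inv_mul_cancel, one_ap]

/-- an involution is `-1` on the complement of its fixed space -/
theorem neg_of_perp {z : V ≃ₗᵢ[ℝ] V} (hz : z * z = 1) {w : V} (hw : w ∈ (fx z)ᗮ) : z w = -w := by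
  have h1 : w + z w ∈ fx z := by
    rw [mem_fx, map_add, ← mul_ap, hz, one_ap, add_comm]
  have h2 : w + z w ∈ (fx z)ᗮ := by
    rw [Submodule.mem_orthogonal]
    intro f hf
    rw [inner_add_right]
    have h3 : inner ℝ f w = 0 := (Submodule.mem_orthogonal _ _).1 hw f hf
    have h4 : inner ℝ f (z w) = 0 := by
      have h5 : inner ℝ (z f) (z w) = inner ℝ f w := z.inner_map_map f w
      rw [mem_fx.1 hf, h3] at h5
      exact h5
    rw [h3, h4, add_zero]
  have h3 : w + z w = 0 := by
    have h4 := (Submodule.mem_orthogonal _ _).1 h2 _ h1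
    exact inner_self_eq_zero.1 h4
  exact eq_neg_of_add_eq_zero_right h3

variable [FiniteDimensional ℝ V]

/-- two involutions with small fixed spaces, whose product has a small fixed space or is trivial, coincide -/
theorem inv_unique (hn : 4 ≤ finrank ℝ V) {z t : V ≃ₗᵢ[ℝ] V} (hz : z * z = 1) (ht : t * t = 1)
    (fz : finrank ℝ (fx z) ≤ 1) (ft : finrank ℝ (fx t) ≤ 1)
    (h : z * t ≠ 1 → finrank ℝ (fx (z * t)) ≤ 1) : z = t := by
  by_contra hne
  have h1 : z * t ≠ 1 := by
    intro h2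
    apply hne
    calc z = z * (t * t) := by rw [ht, mul_one]
      _ = (z * t) * t := by rw [mul_assoc]
      _ = t := by rw [h2, one_mul]
  have h2 := h h1
  have h3 : (fx z ⊔ fx t)ᗮ ≤ fx (z * t) := by
    intro w hw
    have hwz : w ∈ (fx z)ᗮ := Submodule.orthogonal_le le_sup_left hw
    have hwt : w ∈ (fx t)ᗮ := Submodule.orthogonal_le le_sup_right hw
    rw [mem_fx, mul_ap, neg_of_perp ht hwt, map_neg, neg_of_perp hz hwz, neg_neg]
  have h4 := Submodule.finrank_mono h3
  have h5 := Submodule.finrank_add_finrank_orthogonal (fx z ⊔ fx t)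
  have h6 : finrank ℝ (fx z ⊔ fx t : Submodule ℝ V) ≤ 2 := by
    have h7 := Submodule.finrank_add_le_finrank_add_finrank (fx z) (fx t)
    omega
  omega

/-- in a line -/
theorem mem_span_of_finrank {W : Submodule ℝ V} (hW : finrank ℝ W ≤ 1) {u w : V} (hu : u ∈ W) (hu0 : u ≠ 0)
    (hw : w ∈ W) : ∃ c : ℝ, w = c • u := by
  have h1 : finrank ℝ W = 1 := by
    have h2 : 0 < finrank ℝ W := by
      rw [Module.finrank_pos_iff_exists_ne_zero]
      exact ⟨⟨u, hu⟩, fun h => hu0 (by simpa using congrArg Subtype.val h)⟩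
    omega
  have h2 := (finrank_eq_one_iff_of_nonzero' (⟨u, hu⟩ : W) (fun h => hu0 (by simpa using congrArg Subtype.val h))).1 h1 ⟨w, hw⟩
  obtain ⟨c, hc⟩ := h2
  exact ⟨c, by simpa using (congrArg Subtype.val hc).symm⟩

/-- in odd dimension an isometry of determinant one has a fixed vector -/
theorem exists_fix (hn : Odd (finrank ℝ V)) (g : V ≃ₗᵢ[ℝ] V)
    (hdet : LinearMap.det (g.toLinearEquiv : V →ₗ[ℝ] V) = 1) : ∃ v, v ≠ 0 ∧ g v = v := by
  classical
  set b := stdOrthonormalBasis ℝ V with hb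
  set A := LinearMap.toMatrix b.toBasis b.toBasis (g.toLinearEquiv : V →ₗ[ℝ] V) with hA
  have hA1 : A.det = 1 := by rw [hA, LinearMap.det_toMatrix, hdet]
  have hAA : A * A.transpose = 1 := by
    have h1 : LinearMap.adjoint (g.toLinearEquiv : V →ₗ[ℝ] V) = (g.symm.toLinearEquiv : V →ₗ[ℝ] V) := by
      rw [eq_comm, LinearMap.eq_adjoint_iff]
      intro x y
      have h2 := g.inner_map_map (g.symm x) y
      simpa using h2.symm
    have h2 := LinearMap.toMatrix_adjoint b b (g.toLinearEquiv : V →ₗ[ℝ] V)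
    rw [h1] at h2
    have h3 : A.transpose = LinearMap.toMatrix b.toBasis b.toBasis (g.symm.toLinearEquiv : V →ₗ[ℝ] V) := by
      rw [h2, hA]
      rfl
    rw [h3, hA, ← LinearMap.toMatrix_comp]
    have h4 : (g.toLinearEquiv : V →ₗ[ℝ] V) ∘ₗ (g.symm.toLinearEquiv : V →ₗ[ℝ] V) = LinearMap.id := by
      ext v
      simp
    rw [h4, LinearMap.toMatrix_id]
  have h1 : (A - 1).det = 0 := by
    have h2 : (A - 1).det = (1 - A).det := by
      calc (A - 1).det = (A * (1 - A.transpose)).det := by rw [mul_sub, mul_one, hAA]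
        _ = (1 - A.transpose).det := by rw [Matrix.det_mul, hA1, one_mul]
        _ = ((1 - A).transpose).det := by rw [Matrix.transpose_sub, Matrix.transpose_one]
        _ = (1 - A).det := Matrix.det_transpose _
    have h3 : (1 - A).det = -(A - 1).det := by
      rw [← neg_sub, Matrix.det_neg, Fintype.card_fin, hn.neg_one_pow, neg_one_mul]
    rw [h3] at h2
    linarith
  have h2 : LinearMap.det ((g.toLinearEquiv : V →ₗ[ℝ] V) - LinearMap.id) = 0 := by
    rw [← LinearMap.det_toMatrix b.toBasis, map_sub, LinearMap.toMatrix_id]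
    exact h1
  have h3 := LinearMap.bot_lt_ker_of_det_eq_zero h2
  obtain ⟨v, hv, hv0⟩ := (Submodule.ne_bot_iff _).1 h3.ne'
  refine ⟨v, hv0, ?_⟩
  rw [LinearMap.mem_ker, LinearMap.sub_apply, LinearMap.id_apply, sub_eq_zero] at hv
  exact hv

end OL86
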