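import Pool.Agent.H86.OL.A

/-! # Counting: all elements fix the same line -/

set_option autoImplicit false

namespace OL86

open Module

variable {V : Type*} [NormedAddCommGroup V] [InnerProductSpace ℝ V] [FiniteDimensional ℝ V]

/-- the action of a subgroup of the isometry group -/
@[reducible] def act (H : Subgroup (V ≃ₗᵢ[ℝ] V)) : MulAction H V where
  smul g v := g.1 v
  one_smul _ := rfl
  mul_smul _ _ _ := rfl

/-- two unit vectors in a line -/
theorem pm_of_line {W : Submodule ℝ V} (hW : finrank ℝ W ≤ 1) {u w : V} (hu : u ∈ W) (hu1 : ‖u‖ = 1)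
    (hw : w ∈ W) (hw1 : ‖w‖ = 1) : w = u ∨ w = -u := by
  have hu0 : u ≠ 0 := fun h => by rw [h, norm_zero] at hu1; exact zero_ne_one hu1
  obtain ⟨c, hc⟩ := mem_span_of_finrank hW hu hu0 hw
  have h1 : |c| = 1 := by
    have h2 : ‖w‖ = |c| * ‖u‖ := by rw [hc, norm_smul, Real.norm_eq_abs]
    rw [hw1, hu1, mul_one] at h2
    exact h2.symm
  rcases (abs_eq zero_le_one).1 h1 with h | h
  · left; rw [hc, h, one_smul]
  · right; rw [hc, h, neg_smul, one_smul]

/-- Burnside count on an orbit of poles -/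
theorem count (H : Subgroup (V ≃ₗᵢ[ℝ] V)) [Finite H] (hH : ∀ g ∈ H, g ≠ 1 → finrank ℝ (fx g) ≤ 1)
    (hneg : ∀ g ∈ H, ∀ v : V, v ≠ 0 → g v ≠ -v) (u : V) (hu : ‖u‖ = 1) :
    Nat.card {w : V | ∃ g ∈ H, w = g u} + Nat.card {g : H | g ≠ 1 ∧ ∃ h ∈ H, g.1 (h u) = h u} = Nat.card H := by
  classical
  haveI := Fintype.ofFinite H
  letI := act H
  have ho : (MulAction.orbit H u : Set V) = {w : V | ∃ g ∈ H, w = g u} := by
    ext w
    constructor
    · rintro ⟨g, hg⟩
      exact ⟨g.1, g.2, hg.symm⟩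
    · rintro ⟨g, hg, h⟩
      exact ⟨⟨g, hg⟩, h.symm⟩
  haveI hfo : Finite (MulAction.orbit H u) := Set.finite_range _
  haveI := Fintype.ofFinite (MulAction.orbit H u)
  haveI : ∀ a : H, Fintype (MulAction.fixedBy (MulAction.orbit H u) a) := fun a => Fintype.ofFinite _
  have hsub : Subsingleton (Quotient (MulAction.orbitRel H (MulAction.orbit H u))) :=
    MulAction.pretransitive_iff_subsingleton_quotient H _ |>.1 inferInstance
  haveI : Fintype (Quotient (MulAction.orbitRel H (MulAction.orbit H u))) := Fintype.ofFinite _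
  have hB := MulAction.sum_card_fixedBy_eq_card_orbits_mul_card_group H (MulAction.orbit H u)
  have hone : Fintype.card (Quotient (MulAction.orbitRel H (MulAction.orbit H u))) = 1 := by
    rw [Fintype.card_eq_one_iff]
    exact ⟨Quotient.mk'' ⟨u, MulAction.mem_orbit_self u⟩, fun y => Subsingleton.elim _ _⟩
  rw [hone, one_mul] at hB
  have h1 : ∀ a : H, a ≠ 1 → Fintype.card (MulAction.fixedBy (MulAction.orbit H u) a) =
      if (∃ h ∈ H, a.1 (h u) = h u) then 1 else 0 := by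
    intro a ha
    split_ifs with hex
    · obtain ⟨h, hh, hhu⟩ := hex
      rw [Fintype.card_eq_one_iff]
      refine ⟨⟨⟨h u, ⟨⟨h, hh⟩, rfl⟩⟩, ?_⟩, ?_⟩
      · rw [MulAction.mem_fixedBy]
        exact Subtype.ext hhu
      · rintro ⟨⟨w, ⟨⟨k, hk⟩, hkw⟩⟩, hw⟩
        have hkw' : k u = w := hkw
        rw [MulAction.mem_fixedBy] at hw
        have hw' : a.1 w = w := congrArg Subtype.val hw
        apply Subtype.ext
        apply Subtype.ext
        show w = h u
        have hne : a.1 ≠ 1 := fun e => ha (Subtype.ext e)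
        rcases pm_of_line (hH a.1 a.2 hne) (mem_fx.2 hhu) (by rw [h.norm_map, hu]) (mem_fx.2 hw')
          (by rw [← hkw', k.norm_map, hu]) with e | e
        · exact e
        · exfalso
          have h3 : (h⁻¹ * k) u = -u := by
            rw [mul_ap, hkw', e, map_neg, inv_ap]
          exact hneg (h⁻¹ * k) (H.mul_mem (H.inv_mem hh) hk) u
            (fun h => by rw [h, norm_zero] at hu; exact zero_ne_one hu) h3
    · rw [Fintype.card_eq_zero_iff]
      constructor
      rintro ⟨⟨w, ⟨⟨k, hk⟩, hkw⟩⟩, hw⟩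
      rw [MulAction.mem_fixedBy] at hw
      have hw' : a.1 w = w := congrArg Subtype.val hw
      have hkw' : k u = w := hkw
      exact hex ⟨k, hk, by rw [hkw']; exact hw'⟩
  rw [← Finset.add_sum_erase Finset.univ _ (Finset.mem_univ (1 : H))] at hB
  have h2 : ∑ x ∈ Finset.univ.erase (1 : H), Fintype.card (MulAction.fixedBy (MulAction.orbit H u) x) =
      Nat.card {g : H | g ≠ 1 ∧ ∃ h ∈ H, g.1 (h u) = h u} := by
    rw [Finset.sum_congr rfl (fun x hx => h1 x (Finset.ne_of_mem_erase hx)), Finset.sum_ite, Finset.sum_const_zero,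
      add_zero, Finset.sum_const, smul_eq_mul, mul_one, Nat.card_eq_fintype_card, ← Set.toFinset_card]
    congr 1
    ext g
    simp only [Finset.mem_filter, Finset.mem_erase, Finset.mem_univ, and_true, Set.mem_toFinset, Set.mem_setOf_eq]
  have h3 : Fintype.card (MulAction.fixedBy (MulAction.orbit H u) (1 : H)) = Nat.card {w : V | ∃ g ∈ H, w = g u} := by
    rw [← ho, Nat.card_eq_fintype_card]
    apply Fintype.card_congr
    refine ⟨fun x => x.1, fun x => ⟨x, ?_⟩, fun _ => rfl, fun _ => rfl⟩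
    rw [MulAction.mem_fixedBy]
    exact one_smul _ _
  rw [h2, h3] at hB
  rw [hB, Nat.card_eq_fintype_card]

/-- half of the group -/
theorem orbit_half (H : Subgroup (V ≃ₗᵢ[ℝ] V)) [Finite H] (u : V) (h : V ≃ₗᵢ[ℝ] V) (hh : h ∈ H) (h1 : h ≠ 1)
    (hu : h u = u) : 2 * Nat.card {w : V | ∃ g ∈ H, w = g u} ≤ Nat.card H := by
  classical
  haveI := Fintype.ofFinite H
  letI := act H
  have ho : (MulAction.orbit H u : Set V) = {w : V | ∃ g ∈ H, w = g u} := by
    ext w
    constructor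
    · rintro ⟨g, hg⟩
      exact ⟨g.1, g.2, hg.symm⟩
    · rintro ⟨g, hg, h⟩
      exact ⟨⟨g, hg⟩, h.symm⟩
  haveI hfo : Finite (MulAction.orbit H u) := Set.finite_range _
  haveI := Fintype.ofFinite (MulAction.orbit H u)
  haveI := Fintype.ofFinite (MulAction.stabilizer H u)
  have h2 := MulAction.card_orbit_mul_card_stabilizer_eq_card_group H u
  have h3 : 2 ≤ Fintype.card (MulAction.stabilizer H u) := by
    have h4 : Nontrivial (MulAction.stabilizer H u) := by
      refine ⟨⟨⟨h, hh⟩, ?_⟩, 1, ?_⟩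
      · rw [MulAction.mem_stabilizer_iff]
        exact hu
      · intro e
        apply h1
        exact congrArg (fun x => x.1.1) e
    exact Fintype.one_lt_card
  rw [← ho, Nat.card_eq_fintype_card, Nat.card_eq_fintype_card, ← h2, mul_comm]
  exact Nat.mul_le_mul_left _ h3

/-- a finite group whose nontrivial elements fix exactly a line and without eigenvalue `-1` fixes a line -/
theorem common (H : Subgroup (V ≃ₗᵢ[ℝ] V)) [Finite H] (hH : ∀ g ∈ H, g ≠ 1 → finrank ℝ (fx g) ≤ 1)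
    (hfix : ∀ g ∈ H, ∃ v, v ≠ 0 ∧ g v = v)
    (hneg : ∀ g ∈ H, ∀ v : V, v ≠ 0 → g v ≠ -v) (u : V) (hu : ‖u‖ = 1) (h0 : V ≃ₗᵢ[ℝ] V) (h0H : h0 ∈ H)
    (h01 : h0 ≠ 1) (h0u : h0 u = u) : ∀ g ∈ H, g u = u := by
  classical
  by_contra hcon
  push Not at hcon
  obtain ⟨k, hk, hku⟩ := hcon
  have hfO : ∀ x : V, Finite {w : V | ∃ g ∈ H, w = g x} := by
    intro x
    apply Set.Finite.subset (Set.finite_range (fun g : H => g.1 x))
    rintro w ⟨g, hg, h⟩
    exact ⟨⟨g, hg⟩, h.symm⟩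
  haveI := Fintype.ofFinite H
  have c1 := count H hH hneg u hu
  have o1 := orbit_half H u h0 h0H h01 h0u
  have hO2 : 2 ≤ Nat.card {w : V | ∃ g ∈ H, w = g u} := by
    haveI := hfO u
    haveI : Nontrivial {w : V | ∃ g ∈ H, w = g u} :=
      ⟨⟨u, 1, H.one_mem, rfl⟩, ⟨k u, k, hk, rfl⟩, fun e => hku (congrArg Subtype.val e).symm⟩
    exact Finite.one_lt_card
  -- an element outside
  have hex : ∃ g : H, g ≠ 1 ∧ ¬ ∃ h ∈ H, g.1 (h u) = h u := by
    by_contra hc
    push Not at hc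
    have h1 : Nat.card {g : H | g ≠ 1 ∧ ∃ h ∈ H, g.1 (h u) = h u} = Nat.card H - 1 := by
      have h2 : ({g : H | g ≠ 1 ∧ ∃ h ∈ H, g.1 (h u) = h u} : Set H) = {1}ᶜ := by
        ext g
        simp only [Set.mem_setOf_eq, Set.mem_compl_iff, Set.mem_singleton_iff]
        exact ⟨fun h => h.1, fun h => ⟨h, hc g h⟩⟩
      rw [h2, Nat.card_coe_set_eq, Set.ncard_compl, Set.ncard_singleton]
    have h3 : 0 < Nat.card H := Nat.card_pos
    omega
  obtain ⟨g, hg1, hg⟩ := hex
  obtain ⟨v, hv0, hgv⟩ := hfix g.1 g.2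
  have hnv : ‖v‖ ≠ 0 := norm_ne_zero_iff.2 hv0
  set u' := ‖v‖⁻¹ • v with hu'
  have hu'1 : ‖u'‖ = 1 := by
    rw [hu', norm_smul, norm_inv, norm_norm, inv_mul_cancel₀ hnv]
  have hgu' : g.1 u' = u' := by rw [hu', map_smul, hgv]
  have hg1' : g.1 ≠ 1 := fun e => hg1 (Subtype.ext e)
  have c2 := count H hH hneg u' hu'1
  have o2 := orbit_half H u' g.1 g.2 hg1' hgu'
  -- the two sets of elements are disjoint
  have hdis : Nat.card {g : H | g ≠ 1 ∧ ∃ h ∈ H, g.1 (h u) = h u} +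
      Nat.card {g : H | g ≠ 1 ∧ ∃ h ∈ H, g.1 (h u') = h u'} ≤ Nat.card H - 1 := by
    have hd : Disjoint {g : H | g ≠ 1 ∧ ∃ h ∈ H, g.1 (h u) = h u} {g : H | g ≠ 1 ∧ ∃ h ∈ H, g.1 (h u') = h u'} := by
      rw [Set.disjoint_left]
      rintro a ⟨ha1, x, hx, hxu⟩ ⟨_, y, hy, hyu⟩
      have ha1' : a.1 ≠ 1 := fun e => ha1 (Subtype.ext e)
      have h5 := pm_of_line (hH a.1 a.2 ha1') (mem_fx.2 hxu) (by rw [x.norm_map, hu]) (mem_fx.2 hyu)
        (by rw [y.norm_map, hu'1])
      have h6 : u' = (y⁻¹ * x) u ∨ u' = -((y⁻¹ * x) u) := by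
        rcases h5 with e | e
        · left; rw [mul_ap, ← e, inv_ap]
        · right
          rw [mul_ap]
          have h7 : y⁻¹ (y u') = y⁻¹ (-(x u)) := by rw [e]
          rw [inv_ap, map_neg] at h7
          exact h7
      apply hg
      refine ⟨y⁻¹ * x, H.mul_mem (H.inv_mem hy) hx, ?_⟩
      rcases h6 with e | e
      · rw [← e]; exact hgu'
      · have h8 : (y⁻¹ * x) u = -u' := by rw [e, neg_neg]
        rw [h8, map_neg, hgu']
    rw [Nat.card_coe_set_eq, Nat.card_coe_set_eq, ← Set.ncard_union_eq hd]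
    have h9 : ({g : H | g ≠ 1 ∧ ∃ h ∈ H, g.1 (h u) = h u} ∪ {g : H | g ≠ 1 ∧ ∃ h ∈ H, g.1 (h u') = h u'} : Set H) ⊆ {1}ᶜ := by
      rintro a (ha | ha)
      · exact ha.1
      · exact ha.1
    have h10 := Set.ncard_le_ncard h9
    rw [Set.ncard_compl, Set.ncard_singleton] at h10
    exact h10
  have h3 : 0 < Nat.card H := Nat.card_pos
  omega

end OL86
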