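import Pool.Agent.H86.OL.B

/-! # The common line -/

set_option autoImplicit false

namespace OL86

open Module

variable {V : Type*} [NormedAddCommGroup V] [InnerProductSpace ℝ V] [FiniteDimensional ℝ V]

theorem pow_ap_of_fix {g : V ≃ₗᵢ[ℝ] V} {v : V} (h : g v = v) (k : ℕ) : (g ^ k) v = v := by
  induction k with
  | zero => rw [pow_zero, one_ap]
  | succ k ih => rw [pow_succ, mul_ap, h, ih]

theorem pow_ap_of_neg {g : V ≃ₗᵢ[ℝ] V} {v : V} (h : g v = -v) (k : ℕ) : (g ^ k) v = (-1 : ℝ) ^ k • v := by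
  induction k with
  | zero => rw [pow_zero, one_ap, pow_zero, one_smul]
  | succ k ih => rw [pow_succ, mul_ap, h, map_neg, ih, pow_succ, mul_smul, neg_one_smul, smul_neg]

/-- an element of even order has an involution among its powers -/
theorem even_pow {g : V ≃ₗᵢ[ℝ] V} (hg : IsOfFinOrder g) (he : Even (orderOf g)) :
    ∃ k, g ^ k ≠ 1 ∧ g ^ k * g ^ k = 1 := by
  obtain ⟨k, hk⟩ := he
  have h0 : 0 < orderOf g := hg.orderOf_pos
  refine ⟨k, ?_, ?_⟩
  · intro h
    have h1 := orderOf_dvd_of_pow_eq_one h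
    have h2 := Nat.le_of_dvd (by omega) h1
    omega
  · rw [← pow_add, ← hk, pow_orderOf_eq_one]

/-- an element with an eigenvector of eigenvalue `-1` has even order -/
theorem even_of_neg {g : V ≃ₗᵢ[ℝ] V} {v : V} (hv : v ≠ 0) (h : g v = -v) : Even (orderOf g) := by
  by_contra hodd
  rw [Nat.not_even_iff_odd] at hodd
  have h1 := pow_ap_of_neg h (orderOf g)
  rw [pow_orderOf_eq_one, one_ap, hodd.neg_one_pow, neg_one_smul] at h1
  apply hv
  have h2 : (2 : ℝ) • v = 0 := by
    rw [two_smul]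
    nth_rewrite 1 [h1]
    rw [neg_add_cancel]
  exact (smul_eq_zero.1 h2).resolve_left two_ne_zero

/-- determinants of elements of finite order -/
theorem det_pm {g : V ≃ₗᵢ[ℝ] V} (hg : IsOfFinOrder g) :
    LinearMap.det (g.toLinearEquiv : V →ₗ[ℝ] V) = 1 ∨ LinearMap.det (g.toLinearEquiv : V →ₗ[ℝ] V) = -1 := by
  have hpow : ∀ k : ℕ, LinearMap.det ((g ^ k).toLinearEquiv : V →ₗ[ℝ] V) =
      LinearMap.det (g.toLinearEquiv : V →ₗ[ℝ] V) ^ k := by
    intro k
    induction k with
    | zero =>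
      rw [pow_zero, pow_zero]
      exact LinearMap.det_id
    | succ k ih =>
      rw [pow_succ, pow_succ, ← ih, ← LinearMap.det_comp]
      rfl
  have h1 := hpow (orderOf g)
  rw [pow_orderOf_eq_one] at h1
  have h2 : LinearMap.det ((1 : V ≃ₗᵢ[ℝ] V).toLinearEquiv : V →ₗ[ℝ] V) = 1 := LinearMap.det_id
  rw [h2] at h1
  have h3 : |LinearMap.det (g.toLinearEquiv : V →ₗ[ℝ] V)| = 1 := by
    have h4 : |LinearMap.det (g.toLinearEquiv : V →ₗ[ℝ] V)| ^ orderOf g = 1 := by
      rw [← abs_pow, ← h1, abs_one]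
    exact (pow_eq_one_iff_of_nonneg (abs_nonneg _) hg.orderOf_pos.ne').1 h4
  exact (abs_eq zero_le_one).1 h3

theorem det_mul' (g h : V ≃ₗᵢ[ℝ] V) : LinearMap.det ((g * h).toLinearEquiv : V →ₗ[ℝ] V) =
    LinearMap.det (g.toLinearEquiv : V →ₗ[ℝ] V) * LinearMap.det (h.toLinearEquiv : V →ₗ[ℝ] V) := by
  rw [← LinearMap.det_comp]
  rfl

/-- the part of determinant one -/
def so (G : Subgroup (V ≃ₗᵢ[ℝ] V)) : Subgroup (V ≃ₗᵢ[ℝ] V) where
  carrier := {g | g ∈ G ∧ LinearMap.det (g.toLinearEquiv : V →ₗ[ℝ] V) = 1}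
  mul_mem' := by
    rintro a b ⟨ha, ha1⟩ ⟨hb, hb1⟩
    exact ⟨G.mul_mem ha hb, by rw [det_mul', ha1, hb1, mul_one]⟩
  one_mem' := ⟨G.one_mem, LinearMap.det_id⟩
  inv_mem' := by
    rintro a ⟨ha, ha1⟩
    refine ⟨G.inv_mem ha, ?_⟩
    have h1 := det_mul' a a⁻¹
    rw [mul_inv_cancel, ha1, one_mul] at h1
    rw [← h1]
    exact LinearMap.det_id

/-- **common line**: in odd dimension `≥ 5`, a finite group of isometries whose nontrivial elements fix at most a
line preserves a line which contains all their fixed vectors -/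
theorem line (hodd : Odd (finrank ℝ V)) (hn : 4 ≤ finrank ℝ V) (G : Subgroup (V ≃ₗᵢ[ℝ] V)) [Finite G]
    (hG : ∀ g ∈ G, g ≠ 1 → finrank ℝ (fx g) ≤ 1) :
    ∃ u : V, ‖u‖ = 1 ∧ ∀ g ∈ G, (g u = u ∨ g u = -u) ∧ (g ≠ 1 → ∀ w, g w = w → ∃ c : ℝ, w = c • u) := by
  classical
  have hfo : ∀ g ∈ G, IsOfFinOrder g := by
    intro g hg
    have h1 : IsOfFinOrder (⟨g, hg⟩ : G) := isOfFinOrder_of_finite _
    exact MonoidHom.isOfFinOrder G.subtype h1
  by_cases h1 : ∃ z ∈ G, z ≠ 1 ∧ z * z = 1 ∧ ∃ v, v ≠ 0 ∧ z v = v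
  · obtain ⟨z, hz, hz1, hzz, v, hv0, hzv⟩ := h1
    have hnv : ‖v‖ ≠ 0 := norm_ne_zero_iff.2 hv0
    have hu1 : ‖‖v‖⁻¹ • v‖ = 1 := by rw [norm_smul, norm_inv, norm_norm, inv_mul_cancel₀ hnv]
    have hzu : z (‖v‖⁻¹ • v) = ‖v‖⁻¹ • v := by rw [map_smul, hzv]
    generalize ‖v‖⁻¹ • v = u at hu1 hzu
    have hu0 : u ≠ 0 := fun h => by rw [h, norm_zero] at hu1; exact zero_ne_one hu1
    have huniq : ∀ t ∈ G, t ≠ 1 → t * t = 1 → t = z := by
      intro t ht ht1 htt
      exact (inv_unique hn hzz htt (hG z hz hz1) (hG t ht ht1) (fun h => hG _ (G.mul_mem hz ht) h)).symm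
    have hpm : ∀ g ∈ G, g u = u ∨ g u = -u := by
      intro g hg
      have h2 : g * z * g⁻¹ = z := by
        apply huniq _ (G.mul_mem (G.mul_mem hg hz) (G.inv_mem hg))
        · intro h
          apply hz1
          have h3 : g * z = g := by
            calc g * z = g * z * g⁻¹ * g := by rw [inv_mul_cancel_right]
              _ = g := by rw [h, one_mul]
          exact mul_eq_left.1 h3
        · calc g * z * g⁻¹ * (g * z * g⁻¹) = g * (z * z) * g⁻¹ := by group
            _ = 1 := by rw [hzz, mul_one, mul_inv_cancel]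
      have h3 : z (g u) = g u := by
        have h4 : g * z = z * g := by
          calc g * z = g * z * g⁻¹ * g := by rw [inv_mul_cancel_right]
            _ = z * g := by rw [h2]
        rw [← mul_ap, ← h4, mul_ap, hzu]
      exact pm_of_line (hG z hz hz1) (mem_fx.2 hzu) hu1 (mem_fx.2 h3) (by rw [g.norm_map, hu1])
    refine ⟨u, hu1, fun g hg => ⟨hpm g hg, fun hg1 w hw => ?_⟩⟩
    rcases Nat.even_or_odd (orderOf g) with he | ho
    · obtain ⟨k, hk1, hk2⟩ := even_pow (hfo g hg) he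
      have h2 := huniq _ (G.pow_mem hg k) hk1 hk2
      have h3 : z w = w := by rw [← h2]; exact pow_ap_of_fix hw k
      exact mem_span_of_finrank (hG z hz hz1) (mem_fx.2 hzu) hu0 (mem_fx.2 h3)
    · rcases hpm g hg with h2 | h2
      · exact mem_span_of_finrank (hG g hg hg1) (mem_fx.2 h2) hu0 (mem_fx.2 hw)
      · exact absurd (even_of_neg hu0 h2) (Nat.not_even_iff_odd.2 ho)
  · push Not at h1
    -- determinant one: a fixed vector, odd order
    have hodd1 : ∀ g ∈ so G, Odd (orderOf g) := by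
      intro g hg
      by_contra he
      rw [Nat.not_odd_iff_even] at he
      obtain ⟨k, hk1, hk2⟩ := even_pow (hfo g hg.1) he
      have h2 : g ^ k ∈ so G := (so G).pow_mem hg k
      obtain ⟨v, hv0, hv⟩ := exists_fix hodd (g ^ k) h2.2
      exact h1 _ h2.1 hk1 hk2 v hv0 hv
    by_cases h2 : ∀ g ∈ so G, g = 1
    · -- every element has square one
      obtain ⟨x, hx⟩ : ∃ x : V, x ≠ 0 := by
        haveI : Nontrivial V := Module.nontrivial_of_finrank_pos (R := ℝ) (by omega)
        exact exists_ne 0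
      have hnx : ‖x‖ ≠ 0 := norm_ne_zero_iff.2 hx
      refine ⟨‖x‖⁻¹ • x, by rw [norm_smul, norm_inv, norm_norm, inv_mul_cancel₀ hnx], fun g hg => ?_⟩
      by_cases hg1 : g = 1
      · refine ⟨Or.inl (by rw [hg1, one_ap]), fun h => absurd hg1 h⟩
      · have h3 : g * g = 1 := by
          apply h2
          refine ⟨G.mul_mem hg hg, ?_⟩
          rw [det_mul']
          rcases det_pm (hfo g hg) with h | h
          · rw [h, mul_one]
          · rw [h]; norm_num
        have h4 : ∀ v, g v = v → v = 0 := by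
          intro v hv
          by_contra hv0
          exact h1 g hg hg1 h3 v hv0 hv
        have h5 : ∀ v, g v = -v := by
          intro v
          have h6 : g (v + g v) = v + g v := by
            rw [map_add, ← mul_ap, h3, one_ap, add_comm]
          exact eq_neg_of_add_eq_zero_right (h4 _ h6)
        exact ⟨Or.inr (h5 _), fun _ w hw => ⟨0, by rw [h4 w hw, zero_smul]⟩⟩
    · push Not at h2
      obtain ⟨h0, h0m, h01⟩ := h2
      obtain ⟨v, hv0, hv⟩ := exists_fix hodd h0 h0m.2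
      have hnv : ‖v‖ ≠ 0 := norm_ne_zero_iff.2 hv0
      have hu1 : ‖‖v‖⁻¹ • v‖ = 1 := by rw [norm_smul, norm_inv, norm_norm, inv_mul_cancel₀ hnv]
      have hzu : h0 (‖v‖⁻¹ • v) = ‖v‖⁻¹ • v := by rw [map_smul, hv]
      generalize ‖v‖⁻¹ • v = u at hu1 hzu
      have hu0 : u ≠ 0 := fun h => by rw [h, norm_zero] at hu1; exact zero_ne_one hu1
      haveI : Finite (so G) := Finite.Set.subset (G : Set (V ≃ₗᵢ[ℝ] V)) (fun g hg => hg.1)
      have hcom := common (so G) (fun g hg => hG g hg.1) (fun g hg => exists_fix hodd g hg.2)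
        (fun g hg w hw0 hw => absurd (even_of_neg hw0 hw) (Nat.not_even_iff_odd.2 (hodd1 g hg))) u hu1 h0 h0m h01 hzu
      refine ⟨u, hu1, fun g hg => ⟨?_, fun hg1 w hw => ?_⟩⟩
      · have h3 : g * h0 * g⁻¹ ∈ so G := by
          refine ⟨G.mul_mem (G.mul_mem hg h0m.1) (G.inv_mem hg), ?_⟩
          rw [det_mul', det_mul', h0m.2, mul_one, ← det_mul', mul_inv_cancel]
          exact LinearMap.det_id
        have h4 := hcom _ h3
        have h5 : h0 (g⁻¹ u) = g⁻¹ u := by
          have h6 : g⁻¹ ((g * h0 * g⁻¹) u) = g⁻¹ u := by rw [h4]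
          rw [← mul_ap, ← mul_assoc, ← mul_assoc, inv_mul_cancel, one_mul, mul_ap] at h6
          exact h6
        have h7 := pm_of_line (hG h0 h0m.1 h01) (mem_fx.2 hzu) hu1 (mem_fx.2 h5) (by rw [(g⁻¹).norm_map, hu1])
        rcases h7 with h7 | h7
        · left
          have h8 : g (g⁻¹ u) = g u := by rw [h7]
          rw [← mul_ap, mul_inv_cancel, one_ap] at h8
          exact h8.symm
        · right
          have h8 : g (g⁻¹ u) = g (-u) := by rw [h7]
          rw [← mul_ap, mul_inv_cancel, one_ap, map_neg] at h8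
          exact neg_eq_iff_eq_neg.1 h8.symm
      · by_cases h3 : g * g = 1
        · have hw0 : w = 0 := by
            by_contra hw0
            exact h1 g hg hg1 h3 w hw0 hw
          exact ⟨0, by rw [hw0, zero_smul]⟩
        · have h4 : g * g ∈ so G := by
            refine ⟨G.mul_mem hg hg, ?_⟩
            rw [det_mul']
            rcases det_pm (hfo g hg) with h | h
            · rw [h, mul_one]
            · rw [h]; norm_num
          have h5 : (g * g) w = w := by rw [mul_ap, hw, hw]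
          exact mem_span_of_finrank (hG _ h4.1 h3) (mem_fx.2 (hcom _ h4)) hu0 (mem_fx.2 h5)

end OL86
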