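import Pool.Agent.H86.OL.Uq

/-! # Strata and singular points at orbifold points -/

set_option autoImplicit false

namespace OL86

open Filter Topology

attribute [local instance] act

theorem iso_of_bot {H : Subgroup (E5 ≃ₗᵢ[ℝ] E5)} [Finite H] (h : H = ⊥) : Nonempty (Cone H ≃ᵢ E5) := by
  have hd : ∀ v w : E5, dist (pr H v) (pr H w) = dist v w := by
    intro v w
    obtain ⟨g, hg, h1⟩ := cdist_ex (H := H) v w
    rw [h, Subgroup.mem_bot] at hg
    rw [h1, hg, dist_eq_norm]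
    rfl
  choose g hg using (fun c : Cone H => pr_surj (K := H) (M := E5) c)
  exact ⟨(IsometryEquiv.mk' (fun v => pr H v) g hg (Isometry.of_dist_eq hd)).symm⟩

theorem symmetric_transfer {C Y : Type} [MetricSpace C] [MetricSpace Y] {o : C} {y : Y} {k : ℕ} (Φ : C ≃ᵢ Y)
    (hΦ : Φ o = y) (h : IsSymmetric k Y y) : IsSymmetric k C o := by
  obtain ⟨Z, mZ, φ, hZ, hd, hs, h0⟩ := h
  refine ⟨Z, mZ, fun v s a => Φ.symm (φ v s a), hZ, ?_, ?_, ?_⟩
  · intro v w s t a b hs ht
    rw [Φ.symm.dist_eq]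
    exact hd v w s t a b hs ht
  · intro p
    obtain ⟨v, s, a, hs', h⟩ := hs (Φ p)
    exact ⟨v, s, a, hs', by
      show Φ.symm (φ v s a) = p
      rw [h, Φ.symm_apply_apply]⟩
  · intro a
    show Φ.symm (φ 0 0 a) = o
    rw [h0 a, ← hΦ, Φ.symm_apply_apply]

/-- the group of a 2-symmetric flat cone fixes two linearly independent vectors -/
theorem two_of_symmetric {H : Subgroup (E5 ≃ₗᵢ[ℝ] E5)} [Finite H] (h : IsSymmetric 2 (Cone H) (pr H 0)) :
    ∃ v w : E5, LinearIndependent ℝ ![v, w] ∧ (∀ g ∈ H, g v = v) ∧ ∀ g ∈ H, g w = w := by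
  obtain ⟨Z, mZ, φ, hZ, hd, hs, h0⟩ := h
  obtain ⟨-, -, a, -, -⟩ := hs (pr H 0)
  have hd0 : ∀ v w : EuclideanSpace ℝ (Fin 2), dist (φ v 0 a) (φ w 0 a) = dist v w := by
    intro v w
    have h1 := hd v w 0 0 a a le_rfl le_rfl
    have h2 : dist (φ v 0 a) (φ w 0 a) ^ 2 = dist v w ^ 2 := by
      rw [h1]
      ring
    exact (pow_left_inj₀ dist_nonneg dist_nonneg two_ne_zero).1 h2
  -- a unit vector gives a fixed vector
  have key : ∀ b : EuclideanSpace ℝ (Fin 2), ‖b‖ = 1 → ∃ v : E5, pr H v = φ b 0 a ∧ ‖v‖ = 1 ∧ ∀ g ∈ H, g v = v := by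
    intro b hb
    obtain ⟨v, hv⟩ := pr_surj (φ b 0 a)
    obtain ⟨w, hw⟩ := pr_surj (φ (-b) 0 a)
    have hv1 : ‖v‖ = 1 := by
      rw [← cdist_zero (H := H) v, hv, ← h0 a, hd0, dist_zero_right, hb]
    have hw1 : ‖w‖ = 1 := by
      rw [← cdist_zero (H := H) w, hw, ← h0 a, hd0, dist_zero_right, norm_neg, hb]
    have hvw : dist (pr H v) (pr H w) = 2 := by
      rw [hv, hw, hd0, dist_eq_norm, sub_neg_eq_add, ← two_smul ℝ b, norm_smul, hb]
      norm_num
    have h4 : ∀ k ∈ H, k w = -v := by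
      intro k hk
      apply neg_of_dist (by rw [k.norm_map, hw1, hv1])
      rw [hv1, mul_one, ← hvw]
      exact cdist_le v w k hk
    refine ⟨v, hv, hv1, ?_⟩
    intro g hg
    have h5 : w = -v := h4 1 H.one_mem
    have h6 := h4 g hg
    rw [h5, map_neg] at h6
    exact neg_injective h6
  have hb0 : ‖(EuclideanSpace.single 0 1 : EuclideanSpace ℝ (Fin 2))‖ = 1 := by
    rw [EuclideanSpace.norm_single, norm_one]
  have hb1 : ‖(EuclideanSpace.single 1 1 : EuclideanSpace ℝ (Fin 2))‖ = 1 := by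
    rw [EuclideanSpace.norm_single, norm_one]
  obtain ⟨v, hv, hv1, hvf⟩ := key _ hb0
  obtain ⟨w, hw, hw1, hwf⟩ := key _ hb1
  refine ⟨v, w, ?_, hvf, hwf⟩
  have h2 : ‖v - w‖ ^ 2 = 2 := by
    obtain ⟨g, hg, h3⟩ := cdist_ex (H := H) v w
    rw [hwf g hg, hv, hw, hd0] at h3
    rw [← h3, EuclideanSpace.dist_eq, Real.sq_sqrt (by positivity)]
    simp [Fin.sum_univ_two]
    norm_num
  have h3 : inner ℝ v w = 0 := by
    rw [norm_sub_sq_real, hv1, hw1] at h2
    linarith
  rw [LinearIndependent.pair_iff]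
  intro s t hst
  have h4 : inner ℝ v (s • v + t • w) = 0 := by rw [hst, inner_zero_right]
  have h5 : inner ℝ w (s • v + t • w) = 0 := by rw [hst, inner_zero_right]
  rw [inner_add_right, inner_smul_right, inner_smul_right, real_inner_self_eq_norm_sq, h3, hv1] at h4
  rw [inner_add_right, inner_smul_right, inner_smul_right, real_inner_self_eq_norm_sq, real_inner_comm, h3, hw1] at h5
  constructor <;> linarith

variable {X : Type} [MetricSpace X] {U : Set X}

/-- a singular orbifold point has a nontrivial local group -/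
theorem ne_bot_of_singular (O : OrbifoldOn X U) {x : X} (hx : x ∈ U) (h : x ∈ singularSet X) : O.G x ≠ ⊥ := by
  haveI := O.finite x hx
  intro h1
  apply h
  intro Y _ y hT
  obtain ⟨Φ, -⟩ := cone_unique O hx hT
  obtain ⟨Ψ⟩ := iso_of_bot h1
  exact ⟨Φ.symm.trans Ψ⟩

/-- a point is in `S^1` if its local group does not fix two linearly independent vectors -/
theorem mem_stratum_one (O : OrbifoldOn X U) {x : X} (hx : x ∈ U)
    (h : ∀ v w : E5, (∀ g ∈ O.G x, g v = v) → (∀ g ∈ O.G x, g w = w) → ¬ LinearIndependent ℝ ![v, w]) :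
    x ∈ stratum X 1 := by
  haveI := O.finite x hx
  intro Y _ y hT hsym
  obtain ⟨Φ, hΦ⟩ := cone_unique O hx hT
  obtain ⟨v, w, hvw, hv, hw⟩ := two_of_symmetric (symmetric_transfer Φ hΦ hsym)
  exact h v w hv hw hvw

/-- Cheeger-Naber's `S ⊆ S^1` for orbifolds with singularities of codimension at least four -/
theorem singular_stratum (O : OrbifoldOn X U) : ∀ x ∈ U, x ∈ singularSet X → x ∈ stratum X 1 := by
  intro x hx hs
  obtain ⟨⟨g, hg⟩, hg1⟩ := (Subgroup.ne_bot_iff_exists_ne_one).1 (ne_bot_of_singular O hx hs)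
  apply mem_stratum_one O hx
  intro v w hv hw
  exact O.codim x hx g hg (fun e => hg1 (Subtype.ext e)) v w (hv g hg) (hw g hg)

end OL86
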