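import Mathlib

/-! # Tangent cones, symmetric spaces, singular set, orbifold charts (definitions for MP_03a37b_gt) -/

set_option autoImplicit false

namespace OL86

open Filter Topology

/-- Euclidean 5-space -/
abbrev E5 := EuclideanSpace ℝ (Fin 5)

/-- `(Y, y)` is a tangent cone of the metric space `X` at `x`: `Y` is proper (boundedly compact) and `(Y, y)` is the
pointed Gromov-Hausdorff limit of `(X, d / r j, x)` for some positive `r j → 0` -/
def IsTangentCone (X : Type) [MetricSpace X] (x : X) (Y : Type) [MetricSpace Y] (y : Y) : Prop :=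
  ProperSpace Y ∧ ∃ r : ℕ → ℝ, (∀ j, 0 < r j) ∧ Tendsto r atTop (𝓝 0) ∧
    ∀ R > 0, ∀ ε > 0, ∀ᶠ j in atTop, ∃ f : X → Y, f x = y ∧
      (∀ a b, dist a x ≤ R * r j → dist b x ≤ R * r j → |dist (f a) (f b) - dist a b / r j| ≤ ε) ∧
      (∀ z, dist z y ≤ R - ε → ∃ a, dist a x ≤ R * r j ∧ dist (f a) z ≤ ε)

/-- `Y` is `k`-symmetric at `y`: there is a pointed isometry of `ℝ^k × C(Z)` onto `Y`, where `C(Z)` is the metric cone
over a compact metric space `Z`; the point `(v, s, a)` is the point at distance `s` from the vertex in the direction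
`a`, and `d((s, a), (t, b))² = s² + t² - 2 s t cos (min (d(a, b)) π)` in `C(Z)` -/
def IsSymmetric (k : ℕ) (Y : Type) [MetricSpace Y] (y : Y) : Prop :=
  ∃ (Z : Type) (_ : MetricSpace Z) (φ : EuclideanSpace ℝ (Fin k) → ℝ → Z → Y), CompactSpace Z ∧
    (∀ v w s t a b, 0 ≤ s → 0 ≤ t → dist (φ v s a) (φ w t b) ^ 2 =
      dist v w ^ 2 + (s ^ 2 + t ^ 2 - 2 * s * t * Real.cos (min (dist a b) Real.pi))) ∧
    (∀ p, ∃ v s a, 0 ≤ s ∧ φ v s a = p) ∧ ∀ a, φ 0 0 a = y

/-- the set `S^k` of the points at which no tangent cone is `(k+1)`-symmetric -/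
def stratum (X : Type) [MetricSpace X] (k : ℕ) : Set X :=
  {x | ∀ (Y : Type) (_ : MetricSpace Y) (y : Y), IsTangentCone X x Y y → ¬ IsSymmetric (k + 1) Y y}

/-- the singular set `S`: the points at which some tangent cone is not isometric to `ℝ⁵` -/
def singularSet (X : Type) [MetricSpace X] : Set X :=
  {x | ¬ ∀ (Y : Type) (_ : MetricSpace Y) (y : Y), IsTangentCone X x Y y → Nonempty (Y ≃ᵢ E5)}

section

variable {V : Type} [NormedAddCommGroup V] [NormedSpace ℝ V]

/-- `v` and `w` are in one orbit of the group `H` of linear isometries -/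
def SameOrbit (H : Subgroup (V ≃ₗᵢ[ℝ] V)) (v w : V) : Prop := ∃ g ∈ H, g v = w

/-- `K` is conjugate, by a linear isometry, to the stabiliser of `v` in `H` -/
def IsStab (H K : Subgroup (V ≃ₗᵢ[ℝ] V)) (v : V) : Prop :=
  ∃ k : V ≃ₗᵢ[ℝ] V, ∀ g, g ∈ K ↔ (k⁻¹ * g * k ∈ H ∧ (k⁻¹ * g * k) v = v)

/-- the distance of the points `v` and `w` in the quotient `V / H` -/
noncomputable def coneDist (H : Subgroup (V ≃ₗᵢ[ℝ] V)) (v w : V) : ℝ := ⨅ g : H, ‖v - g.1 w‖

/-- the singularities have codimension at least `dim V - 1`: no element of `H` other than the identity fixes two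
linearly independent vectors -/
def FixesLine (H : Subgroup (V ≃ₗᵢ[ℝ] V)) : Prop :=
  ∀ g ∈ H, g ≠ 1 → ∀ v w, g v = v → g w = w → ¬ LinearIndependent ℝ ![v, w]

/-- `H` is the group `{1, -1}` -/
def IsPlusMinus (H : Subgroup (V ≃ₗᵢ[ℝ] V)) : Prop := ∀ g, g ∈ H ↔ g = 1 ∨ g = LinearIsometryEquiv.neg ℝ

end

/-- the subgroups of O(5) -/
abbrev Sub5 := Subgroup (E5 ≃ₗᵢ[ℝ] E5)

/-- the open ball of radius `r` about the origin -/
abbrev B5 (r : ℝ) : Set E5 := Metric.ball 0 r

/-- The subset `U` of the metric space `X` is (an open subset of `X` and) a 5-dimensional orbifold whose singularities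
have codimension at least four, with charts that are asymptotically isometric at their centres (as the charts of a
Riemannian orbifold in normal coordinates). -/
structure OrbifoldOn (X : Type) [MetricSpace X] (U : Set X) where
  /-- the local group of a point, a finite subgroup of O(5) -/
  G : X → Sub5
  /-- it is finite -/
  finite : ∀ x ∈ U, Finite (G x)
  /-- the singularities have codimension at least four: an element of a local group other than the identity does not
  fix two linearly independent vectors -/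
  codim : ∀ x ∈ U, FixesLine (G x)
  /-- the radius of the chart at a point -/
  rad : X → ℝ
  /-- it is positive -/
  rad_pos : ∀ x ∈ U, 0 < rad x
  /-- the chart at a point, on the ball of radius `rad x` -/
  chart : X → E5 → X
  /-- it is centred at the point -/
  chart_zero : ∀ x ∈ U, chart x 0 = x
  /-- it maps the ball to `U` -/
  chart_mem : ∀ x ∈ U, ∀ v ∈ B5 (rad x), chart x v ∈ U
  /-- it is continuous on the ball -/
  chart_cont : ∀ x ∈ U, ContinuousOn (chart x) (B5 (rad x))
  /-- it is open on the ball -/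
  chart_open : ∀ x ∈ U, ∀ V ⊆ B5 (rad x), IsOpen V → IsOpen (chart x '' V)
  /-- its fibres are the orbits of the local group -/
  chart_eq : ∀ x ∈ U, ∀ v ∈ B5 (rad x), ∀ w ∈ B5 (rad x), (chart x v = chart x w ↔ SameOrbit (G x) v w)
  /-- the local group at the point with coordinate `v` is conjugate in O(5) to the stabiliser of `v` -/
  chart_group : ∀ x ∈ U, ∀ v ∈ B5 (rad x), IsStab (G x) (G (chart x v)) v
  /-- near the centre the distance of two points is, up to a small relative error, their distance in the flat cone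
  `ℝ⁵ / G x` -/
  chart_dist : ∀ x ∈ U, ∀ ε > 0, ∃ δ > 0, ∀ v w : E5, ‖v‖ < δ → ‖w‖ < δ →
    |dist (chart x v) (chart x w) - coneDist (G x) v w| ≤ ε * max ‖v‖ ‖w‖

/-- a continuous injective curve on `[a, b]` -/
def IsArc {X : Type} [MetricSpace X] (c : ℝ → X) (a b : ℝ) : Prop :=
  ContinuousOn c (Set.Icc a b) ∧ Set.InjOn c (Set.Icc a b)

/-- `c` parametrizes a singular curve -/
def IsSingularCurve {X : Type} [MetricSpace X] (c : ℝ → X) : Prop :=
  IsArc c 0 1 ∧ ∀ t ∈ Set.Icc (0 : ℝ) 1, c t ∈ singularSet X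

/-- the set `S^1 \ S^0` of the 1-symmetric singular points -/
def oneSymmetric (X : Type) [MetricSpace X] : Set X := stratum X 1 \ stratum X 0

/-- near `x` the singular points are the points of `A` -/
def SingularNear {X : Type} [MetricSpace X] (x : X) (A : Set X) : Prop := ∀ᶠ y in 𝓝 x, (y ∈ singularSet X ↔ y ∈ A)

end OL86
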