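import Pool.Agent.H86.OL.Defs

/-! # The local model `ℝ × ℝ⁴ / Γ` (definitions for MP_63a02b_gt) -/

set_option autoImplicit false

namespace OL86

open Filter Topology

/-- Euclidean 4-space -/
abbrev E4 := EuclideanSpace ℝ (Fin 4)

section

variable {V : Type} [NormedAddCommGroup V] [NormedSpace ℝ V]

/-- `(Y, y)` is, as a pointed metric space, the product of a line and the quotient `V / Γ` -/
def IsLineTimesCone (Γ : Subgroup (V ≃ₗᵢ[ℝ] V)) (Y : Type) [MetricSpace Y] (y : Y) : Prop :=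
  ∃ φ : ℝ → V → Y, φ 0 0 = y ∧ (∀ p, ∃ s v, φ s v = p) ∧
    ∀ s t v w, dist (φ s v) (φ t w) ^ 2 = (s - t) ^ 2 + coneDist Γ v w ^ 2

/-- `Γ` is finite and not trivial, and it acts freely on the unit sphere -/
def IsFreeGroup (Γ : Subgroup (V ≃ₗᵢ[ℝ] V)) : Prop :=
  Finite Γ ∧ Γ ≠ ⊥ ∧ ∀ g ∈ Γ, g ≠ 1 → ∀ v, g v = v → v = 0

/-- `v` is fixed by `Γ` -/
def IsFixed (Γ : Subgroup (V ≃ₗᵢ[ℝ] V)) (v : V) : Prop := ∀ g ∈ Γ, g v = v

end

/-- the set of the points that have a tangent cone and whose tangent cones all are `ℝ × ℝ⁴ / Γ`, for a nontrivial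
finite group `Γ` of isometries of `ℝ⁴` that acts freely on the unit sphere -/
def modelSet (X : Type) [MetricSpace X] : Set X :=
  {x | (∃ (Y : Type) (_ : MetricSpace Y) (y : Y), IsTangentCone X x Y y) ∧
    ∃ Γ : Subgroup (E4 ≃ₗᵢ[ℝ] E4), IsFreeGroup Γ ∧ ∀ (Y : Type) (_ : MetricSpace Y) (y : Y), IsTangentCone X x Y y → IsLineTimesCone Γ Y y}

/-- `c` is on `[-1, 1]` a geodesic of constant speed that minimises distances -/
def IsGeodesic {X : Type} [MetricSpace X] (c : ℝ → X) : Prop :=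
  ∃ L > 0, ∀ s ∈ Set.Icc (-1 : ℝ) 1, ∀ t ∈ Set.Icc (-1 : ℝ) 1, dist (c s) (c t) = L * |s - t|

/-- the charts are normal coordinates along the directions fixed by the local group: these lines are geodesics -/
def IsNormal {X : Type} [MetricSpace X] {U : Set X} (O : OrbifoldOn X U) : Prop :=
  ∀ x ∈ U, ∀ v, IsFixed (O.G x) v → ∀ s t : ℝ, s • v ∈ B5 (O.rad x) → t • v ∈ B5 (O.rad x) →
    dist (O.chart x (s • v)) (O.chart x (t • v)) = |s - t| * ‖v‖

end OL86
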