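import Pool.Agent.H86.OL.C

/-! # The metric on the quotient of a metric space by a finite group of isometries -/

set_option autoImplicit false

namespace OL86

/-- the quotient of `M` by the isometric action of `K` -/
def Quo (K M : Type) [Group K] [MulAction K M] : Type := MulAction.orbitRel.Quotient K M

section

variable {K M : Type} [Group K] [MulAction K M]

/-- the projection -/
def pr (K : Type) {M : Type} [Group K] [MulAction K M] (a : M) : Quo K M := Quotient.mk'' a

theorem pr_surj (p : Quo K M) : ∃ a, pr K a = p := Quotient.inductionOn' p (fun a => ⟨a, rfl⟩)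

theorem pr_eq {a b : M} : pr K a = pr K b ↔ ∃ g : K, g • b = a := by
  have h : pr K a = pr K b ↔ (MulAction.orbitRel K M) a b := Quotient.eq''
  rw [h, MulAction.orbitRel_apply, MulAction.mem_orbit_iff]

end

section

variable {K M : Type} [Group K] [Finite K] [MetricSpace M] [MulAction K M] [IsIsometricSMul K M]

/-- the distance -/
noncomputable def qd (p q : Quo K M) : ℝ :=
  Quotient.liftOn₂' p q (fun a b => ⨅ g : K, dist a (g • b)) (by
    intro a b a' b' h h'
    rw [MulAction.orbitRel_apply, MulAction.mem_orbit_iff] at h h'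
    obtain ⟨x, rfl⟩ := h
    obtain ⟨y, rfl⟩ := h'
    have h1 : (fun g : K => dist (x • a') (g • y • b')) = (fun g : K => dist a' (g • b')) ∘
        ((Equiv.mulLeft x⁻¹).trans (Equiv.mulRight y)) := by
      funext g
      simp only [Function.comp_apply, Equiv.trans_apply, Equiv.coe_mulLeft, Equiv.coe_mulRight]
      rw [mul_smul, mul_smul, ← dist_smul x a' (x⁻¹ • g • y • b'), smul_inv_smul]
    show (⨅ g : K, dist (x • a') (g • y • b')) = ⨅ g : K, dist a' (g • b')
    rw [h1]
    exact Equiv.iInf_comp (g := fun g : K => dist a' (g • b')) ((Equiv.mulLeft x⁻¹).trans (Equiv.mulRight y)))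

theorem qd_mk (a b : M) : qd (pr K a) (pr K b) = ⨅ g : K, dist a (g • b) := rfl

theorem qd_le (a b : M) (g : K) : qd (pr K a) (pr K b) ≤ dist a (g • b) := by
  rw [qd_mk]
  exact ciInf_le (Set.finite_range _).bddBelow g

theorem qd_ex (a b : M) : ∃ g : K, qd (pr K a) (pr K b) = dist a (g • b) := by
  obtain ⟨g, hg⟩ := exists_eq_ciInf_of_finite (f := fun g : K => dist a (g • b))
  exact ⟨g, by rw [qd_mk, ← hg]⟩

noncomputable instance quoMetric : MetricSpace (Quo K M) where
  dist := qd
  dist_self p := by
    obtain ⟨a, rfl⟩ := pr_surj p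
    apply le_antisymm
    · have h := qd_le (K := K) a a 1
      rwa [one_smul, dist_self] at h
    · obtain ⟨g, hg⟩ := qd_ex (K := K) a a
      rw [hg]
      exact dist_nonneg
  dist_comm p q := by
    obtain ⟨a, rfl⟩ := pr_surj p
    obtain ⟨b, rfl⟩ := pr_surj q
    have key : ∀ a b : M, qd (pr K a) (pr K b) ≤ qd (pr K b) (pr K a) := by
      intro a b
      obtain ⟨g, hg⟩ := qd_ex (K := K) b a
      rw [hg]
      refine (qd_le a b g⁻¹).trans (le_of_eq ?_)
      rw [← dist_smul g a, smul_inv_smul, dist_comm]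
    exact le_antisymm (key a b) (key b a)
  dist_triangle p q s := by
    obtain ⟨a, rfl⟩ := pr_surj p
    obtain ⟨b, rfl⟩ := pr_surj q
    obtain ⟨c, rfl⟩ := pr_surj s
    obtain ⟨g, hg⟩ := qd_ex (K := K) a b
    obtain ⟨h, hh⟩ := qd_ex (K := K) b c
    show qd _ _ ≤ qd _ _ + qd _ _
    rw [hg, hh]
    refine (qd_le a c (g * h)).trans ?_
    rw [mul_smul]
    refine (dist_triangle a (g • b) (g • h • c)).trans ?_
    rw [dist_smul g b (h • c)]
  eq_of_dist_eq_zero := by
    intro p q hpq
    obtain ⟨a, rfl⟩ := pr_surj p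
    obtain ⟨b, rfl⟩ := pr_surj q
    obtain ⟨g, hg⟩ := qd_ex (K := K) a b
    have h1 : qd (pr K a) (pr K b) = 0 := hpq
    rw [hg] at h1
    exact pr_eq.2 ⟨g, (dist_eq_zero.1 h1).symm⟩

theorem dist_le (a b : M) (g : K) : dist (pr K a) (pr K b) ≤ dist a (g • b) := qd_le a b g

theorem dist_le' (a b : M) : dist (pr K a) (pr K b) ≤ dist a b := by
  have h := dist_le (K := K) a b 1
  rwa [one_smul] at h

theorem dist_ex (a b : M) : ∃ g : K, dist (pr K a) (pr K b) = dist a (g • b) := qd_ex a b

theorem pr_lip : LipschitzWith 1 (pr K : M → Quo K M) := by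
  apply LipschitzWith.mk_one
  intro a b
  exact dist_le' a b

theorem pr_cont : Continuous (pr K : M → Quo K M) := pr_lip.continuous

theorem quo_proper [ProperSpace M] : ProperSpace (Quo K M) := by
  constructor
  intro p R
  obtain ⟨a, rfl⟩ := pr_surj p
  have h : Metric.closedBall (pr K a) R = pr K '' Metric.closedBall a R := by
    ext q
    constructor
    · intro hq
      obtain ⟨b, rfl⟩ := pr_surj q
      rw [Metric.mem_closedBall, dist_comm] at hq
      obtain ⟨g, hg⟩ := dist_ex (K := K) a b
      refine ⟨g • b, ?_, pr_eq.2 ⟨g, rfl⟩⟩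
      rw [Metric.mem_closedBall, dist_comm, ← hg]
      exact hq
    · rintro ⟨b, hb, rfl⟩
      rw [Metric.mem_closedBall] at hb ⊢
      exact (dist_le' b a).trans hb
  rw [h]
  exact (isCompact_closedBall a R).image pr_cont

theorem quo_compact [CompactSpace M] : CompactSpace (Quo K M) := by
  constructor
  have h : (Set.univ : Set (Quo K M)) = pr K '' Set.univ := by
    rw [Set.image_univ]
    exact (Set.range_eq_univ.2 pr_surj).symm
  rw [h]
  exact isCompact_univ.image pr_cont

end

end OL86
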