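import Pool.Agent.H86.OL.R
import Pool.Agent.H86.OL.Defs2

/-! # The local model at a 1-symmetric orbifold point -/

set_option autoImplicit false

namespace OL86

open Set Filter Topology

attribute [local instance] act

theorem coneDist_le {V : Type} [NormedAddCommGroup V] [NormedSpace ℝ V] {H : Subgroup (V ≃ₗᵢ[ℝ] V)} [Finite H]
    (v w : V) (g : V ≃ₗᵢ[ℝ] V) (hg : g ∈ H) : coneDist H v w ≤ ‖v - g w‖ :=
  ciInf_le (f := fun g : H => ‖v - g.1 w‖) (Set.finite_range _).bddBelow ⟨g, hg⟩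

theorem coneDist_ex {V : Type} [NormedAddCommGroup V] [NormedSpace ℝ V] {H : Subgroup (V ≃ₗᵢ[ℝ] V)} [Finite H]
    (v w : V) : ∃ g ∈ H, coneDist H v w = ‖v - g w‖ := by
  obtain ⟨g, hg⟩ := exists_eq_ciInf_of_finite (f := fun g : H => ‖v - g.1 w‖)
  exact ⟨g.1, g.2, hg.symm⟩

/-- the orthogonal complement of a unit vector, with coordinates -/
theorem exists_coord {u : E5} (hu : ‖u‖ = 1) : ∃ e : E4 →ₗᵢ[ℝ] E5, (∀ v, inner ℝ u (e v) = 0) ∧
    ∀ w, inner ℝ u w = 0 → ∃ v, e v = w := by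
  have hu0 : u ≠ 0 := fun h => by rw [h, norm_zero] at hu; exact zero_ne_one hu
  have h1 : Module.finrank ℝ (ℝ ∙ u)ᗮ = 4 := by
    have h2 := Submodule.finrank_add_finrank_orthogonal (ℝ ∙ u)
    rw [finrank_span_singleton hu0, finrank_E5] at h2
    omega
  let b := (stdOrthonormalBasis ℝ (ℝ ∙ u)ᗮ).reindex (finCongr h1)
  let e : E4 ≃ₗᵢ[ℝ] (ℝ ∙ u)ᗮ := b.repr.symm
  refine ⟨(ℝ ∙ u)ᗮ.subtypeₗᵢ.comp e.toLinearIsometry, ?_, ?_⟩
  · intro v
    exact (Submodule.mem_orthogonal_singleton_iff_inner_right).1 (e v).2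
  · intro w hw
    have hw' : w ∈ (ℝ ∙ u)ᗮ := (Submodule.mem_orthogonal_singleton_iff_inner_right).2 hw
    refine ⟨e.symm ⟨w, hw'⟩, ?_⟩
    show ((e (e.symm ⟨w, hw'⟩) : (ℝ ∙ u)ᗮ) : E5) = w
    rw [e.apply_symm_apply]

/-- the transversal group -/
def trans (G : Subgroup (E5 ≃ₗᵢ[ℝ] E5)) (e : E4 →ₗᵢ[ℝ] E5) : Subgroup (E4 ≃ₗᵢ[ℝ] E4) where
  carrier := {h | ∃ g ∈ G, ∀ v, g (e v) = e (h v)}
  mul_mem' := by
    rintro h1 h2 ⟨g1, hg1, k1⟩ ⟨g2, hg2, k2⟩
    refine ⟨g1 * g2, G.mul_mem hg1 hg2, fun v => ?_⟩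
    rw [mul_ap, mul_ap, k2, k1]
  one_mem' := ⟨1, G.one_mem, fun _ => rfl⟩
  inv_mem' := by
    rintro h ⟨g, hg, k⟩
    refine ⟨g⁻¹, G.inv_mem hg, fun v => ?_⟩
    have h1 := k (h⁻¹ v)
    have h2 : h (h⁻¹ v) = v := by rw [← mul_ap, mul_inv_cancel, one_ap]
    rw [h2] at h1
    rw [← h1, inv_ap]

theorem trans_ex {G : Subgroup (E5 ≃ₗᵢ[ℝ] E5)} {e : E4 →ₗᵢ[ℝ] E5} {u : E5} (he1 : ∀ v, inner ℝ u (e v) = 0)
    (he2 : ∀ w, inner ℝ u w = 0 → ∃ v, e v = w) {g : E5 ≃ₗᵢ[ℝ] E5} (hg : g ∈ G) (hgu : g u = u) :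
    ∃ h ∈ trans G e, ∀ v, g (e v) = e (h v) := by
  have h1 : ∀ v, ∃ w, e w = g (e v) := by
    intro v
    apply he2
    have h2 := g.inner_map_map u (e v)
    rw [hgu] at h2
    rw [h2]
    exact he1 v
  choose f hf using h1
  let li : E4 →ₗᵢ[ℝ] E4 :=
    { toFun := f
      map_add' := fun a b => e.injective (by rw [map_add, hf, hf, hf, map_add, map_add])
      map_smul' := fun c a => e.injective (by rw [hf, RingHom.id_apply, map_smul, map_smul, map_smul, hf])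
      norm_map' := fun a => by
        show ‖f a‖ = ‖a‖
        rw [← e.norm_map (f a), hf, g.norm_map, e.norm_map] }
  refine ⟨li.toLinearIsometryEquiv rfl, ⟨g, hg, fun v => ?_⟩, fun v => ?_⟩
  · exact (hf v).symm
  · exact (hf v).symm

theorem norm_split {u : E5} (hu : ‖u‖ = 1) {e : E4 →ₗᵢ[ℝ] E5} (he1 : ∀ v, inner ℝ u (e v) = 0) (s : ℝ) (v : E4) :
    ‖s • u + e v‖ ^ 2 = s ^ 2 + ‖v‖ ^ 2 := by
  have h1 : inner ℝ (s • u) (e v) = 0 := by rw [real_inner_smul_left, he1, mul_zero]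
  rw [sq, norm_add_sq_eq_norm_sq_add_norm_sq_of_inner_eq_zero _ _ h1, norm_smul, hu, mul_one, e.norm_map, ← sq, ← sq,
    Real.norm_eq_abs, sq_abs]

variable {X : Type} [MetricSpace X] {U : Set X}

/-- the local model at a 1-symmetric orbifold point -/
theorem mem_model (O : OrbifoldOn X U) {x : X} (hx : x ∈ U) (hG : O.G x ≠ ⊥) {u : E5} (hu : ‖u‖ = 1)
    (hA : ∀ g ∈ O.G x, g u = u) (hline : ∀ g ∈ O.G x, g ≠ 1 → ∀ w, g w = w → ∃ c : ℝ, w = c • u) :
    x ∈ modelSet X := by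
  haveI := O.finite x hx
  obtain ⟨e, he1, he2⟩ := exists_coord hu
  have hdec : ∀ w : E5, ∃ (s : ℝ) (v : E4), w = s • u + e v := by
    intro w
    obtain ⟨v, hv⟩ := he2 (w - inner ℝ u w • u) (by
      rw [inner_sub_right, real_inner_smul_right, real_inner_self_eq_norm_sq, hu]
      ring)
    exact ⟨inner ℝ u w, v, by rw [hv]; abel⟩
  have hfin : Finite (trans (O.G x) e) := by
    have h1 : ∀ h : trans (O.G x) e, ∃ g : O.G x, ∀ v, g.1 (e v) = e (h.1 v) := by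
      rintro ⟨h, g, hg, k⟩
      exact ⟨⟨g, hg⟩, k⟩
    choose F hF using h1
    apply Finite.of_injective F
    intro h1 h2 h12
    apply Subtype.ext
    ext1 v
    apply e.injective
    rw [← hF h1 v, ← hF h2 v, h12]
  refine ⟨⟨Cone (O.G x), inferInstance, pr (O.G x) 0, cone_tangent O hx⟩, trans (O.G x) e, ⟨hfin, ?_, ?_⟩, ?_⟩
  · obtain ⟨⟨g, hg⟩, hg1⟩ := (Subgroup.ne_bot_iff_exists_ne_one).1 hG
    obtain ⟨h, hh, k⟩ := trans_ex he1 he2 hg (hA g hg)
    intro hbot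
    rw [hbot, Subgroup.mem_bot] at hh
    apply hg1
    apply Subtype.ext
    show g = 1
    ext1 w
    obtain ⟨s, v, rfl⟩ := hdec w
    rw [one_ap, map_add, map_smul, hA g hg, k, hh, one_ap]
  · rintro h ⟨g, hg, k⟩ h1 v hv
    have hg1 : g ≠ 1 := by
      intro hg1
      apply h1
      ext1 w
      apply e.injective
      rw [← k w, hg1]
      rfl
    obtain ⟨c, hc⟩ := hline g hg hg1 (e v) (by rw [k, hv])
    have h2 := he1 v
    rw [hc, real_inner_smul_right, real_inner_self_eq_norm_sq, hu] at h2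
    have h3 : c = 0 := by linarith
    rw [h3, zero_smul] at hc
    apply e.injective
    rw [hc, map_zero]
  · intro Y _ y hT
    obtain ⟨Φ, hΦ⟩ := cone_unique O hx hT
    refine ⟨fun s v => Φ (pr (O.G x) (s • u + e v)), ?_, ?_, ?_⟩
    · show Φ (pr (O.G x) ((0 : ℝ) • u + e 0)) = y
      rw [zero_smul, map_zero, add_zero, hΦ]
    · intro p
      obtain ⟨w, hw⟩ := pr_surj (Φ.symm p)
      obtain ⟨s, v, rfl⟩ := hdec w
      refine ⟨s, v, ?_⟩
      show Φ (pr (O.G x) (s • u + e v)) = p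
      rw [hw, Φ.apply_symm_apply]
    · intro s t v w
      show dist (Φ (pr (O.G x) (s • u + e v))) (Φ (pr (O.G x) (t • u + e w))) ^ 2 = _
      rw [Φ.dist_eq]
      have hN : ∀ g ∈ O.G x, ∀ h : E4 ≃ₗᵢ[ℝ] E4, (∀ v, g (e v) = e (h v)) →
          ‖(s • u + e v) - g (t • u + e w)‖ ^ 2 = (s - t) ^ 2 + ‖v - h w‖ ^ 2 := by
        intro g hg h k
        have h1 : (s • u + e v) - g (t • u + e w) = (s - t) • u + e (v - h w) := by
          rw [map_add, map_smul, hA g hg, k, map_sub, sub_smul]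
          abel
        rw [h1, norm_split hu he1]
      apply le_antisymm
      · obtain ⟨h, ⟨g, hg, k⟩, hK⟩ := coneDist_ex (H := trans (O.G x) e) v w
        rw [hK, ← hN g hg h k]
        exact pow_le_pow_left₀ dist_nonneg (cdist_le _ _ g hg) 2
      · obtain ⟨g, hg, hD⟩ := cdist_ex (H := O.G x) (s • u + e v) (t • u + e w)
        obtain ⟨h, hh, k⟩ := trans_ex he1 he2 hg (hA g hg)
        rw [hD, hN g hg h k]
        have h1 := coneDist_le (H := trans (O.G x) e) v w h hh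
        have h2 : 0 ≤ coneDist (trans (O.G x) e) v w := by
          obtain ⟨h', -, hK⟩ := coneDist_ex (H := trans (O.G x) e) v w
          rw [hK]
          exact norm_nonneg _
        have h3 := pow_le_pow_left₀ h2 h1 2
        linarith

end OL86
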