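import Pool.Agent.H86.OL.Sy

/-! # Orbifold points of a metric space: local groups, strata and codimension -/

set_option autoImplicit false

namespace OL86

open Set Filter Topology

theorem finrank_E5 : Module.finrank ℝ E5 = 5 := by
  rw [finrank_euclideanSpace, Fintype.card_fin]

/-- a parameter that avoids the elements that do not fix both vectors -/
theorem exists_param {H : Subgroup (E5 ≃ₗᵢ[ℝ] E5)} [Finite H] (v w : E5) :
    ∃ t : ℝ, ∀ h ∈ H, h (v + t • w) = v + t • w → h v = v ∧ h w = w := by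
  have key : (⋃ h : H, {t : ℝ | h.1 (v + t • w) = v + t • w ∧ ¬ (h.1 v = v ∧ h.1 w = w)}).Finite := by
    apply Set.finite_iUnion
    intro h
    apply Set.Subsingleton.finite
    rintro s ⟨hs, hbad⟩ t ⟨ht, -⟩
    by_contra hst
    have h1 : (s - t) • h.1 w = (s - t) • w := by
      rw [map_add, map_smul] at hs ht
      rw [sub_smul, sub_smul]
      calc s • h.1 w - t • h.1 w = (h.1 v + s • h.1 w) - (h.1 v + t • h.1 w) := by abel
        _ = s • w - t • w := by rw [hs, ht]; abel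
    have h2 : h.1 w = w := smul_right_injective _ (sub_ne_zero.2 hst) h1
    apply hbad
    refine ⟨?_, h2⟩
    rw [map_add, map_smul, h2] at hs
    exact add_right_cancel hs
  obtain ⟨t, ht⟩ := key.exists_notMem
  refine ⟨t, fun h hh h1 => ?_⟩
  by_contra h2
  exact ht (Set.mem_iUnion.2 ⟨⟨h, hh⟩, h1, h2⟩)

theorem conj_fix {k g : E5 ≃ₗᵢ[ℝ] E5} {v : E5} (h : (k⁻¹ * g * k) v = v) : g (k v) = k v := by
  have h2 : k ((k⁻¹ * g * k) v) = k v := by rw [h]
  rw [← mul_ap, ← mul_assoc, ← mul_assoc, mul_inv_cancel, one_mul, mul_ap] at h2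
  exact h2

variable {X : Type} [MetricSpace X] {U : Set X}

/-- the local group in a chart -/
theorem ne_bot_chart (O : OrbifoldOn X U) {x : X} (hx : x ∈ U) {v : E5} (hv : v ∈ Metric.ball (0 : E5) (O.rad x)) :
    O.G (O.chart x v) ≠ ⊥ ↔ ∃ g ∈ O.G x, g ≠ 1 ∧ g v = v := by
  obtain ⟨k, hk⟩ := O.chart_group x hx v hv
  rw [Subgroup.ne_bot_iff_exists_ne_one]
  constructor
  · rintro ⟨⟨g, hg⟩, hg1⟩
    obtain ⟨h1, h2⟩ := (hk g).1 hg
    refine ⟨_, h1, ?_, h2⟩
    intro h3
    apply hg1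
    apply Subtype.ext
    show g = 1
    calc g = k * (k⁻¹ * g * k) * k⁻¹ := by group
      _ = 1 := by rw [h3, mul_one, mul_inv_cancel]
  · rintro ⟨g, hg, hg1, hgv⟩
    have h1 : k⁻¹ * (k * g * k⁻¹) * k = g := by group
    refine ⟨⟨k * g * k⁻¹, (hk _).2 ⟨by rw [h1]; exact hg, by rw [h1]; exact hgv⟩⟩, ?_⟩
    intro h2
    apply hg1
    have h3 : k * g * k⁻¹ = 1 := congrArg Subtype.val h2
    rw [← h1, h3, mul_one, inv_mul_cancel]

/-- a point with a nontrivial local group is singular -/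
theorem mem_singular (O : OrbifoldOn X U) {x : X} (hx : x ∈ U) (h : O.G x ≠ ⊥) : x ∈ singularSet X := by
  haveI := O.finite x hx
  intro h1
  exact h (trivial_of_iso (h1 _ _ _ (cone_tangent O hx)))

/-- a point with a trivial local group is not in `S^1` -/
theorem ne_bot_of_stratum (O : OrbifoldOn X U) {x : X} (hx : x ∈ U) (h : x ∈ stratum X 1) : O.G x ≠ ⊥ := by
  haveI := O.finite x hx
  intro h1
  obtain ⟨W, hW⟩ : ∃ W : Submodule ℝ E5, Module.finrank ℝ W = 2 := by
    have h2 : (2 : ℕ) ≤ Module.finrank ℝ E5 := by rw [finrank_E5]; norm_num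
    obtain ⟨f, hf⟩ := exists_linearIndependent_of_le_finrank h2
    exact ⟨Submodule.span ℝ (Set.range f), by rw [finrank_span_eq_card hf, Fintype.card_fin]⟩
  refine h _ _ _ (cone_tangent O hx) (symmetric_of_fixed (k := 2) hW (by norm_num) ?_)
  intro g hg w _
  rw [h1, Subgroup.mem_bot] at hg
  rw [hg]
  rfl

/-- a tangent cone splits off a line if and only if the local group fixes a nonzero vector -/
theorem notMem_zero (O : OrbifoldOn X U) {x : X} (hx : x ∈ U) :
    x ∉ stratum X 0 ↔ ∃ v : E5, v ≠ 0 ∧ ∀ g ∈ O.G x, g v = v := by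
  haveI := O.finite x hx
  constructor
  · intro h
    unfold stratum at h
    simp only [mem_setOf_eq, not_forall, not_not] at h
    obtain ⟨Y, mY, y, hT, Z, mZ, φ, hZ, hd, hs, h0⟩ := h
    obtain ⟨-, -, a, -, -⟩ := hs y
    let b : EuclideanSpace ℝ (Fin (0 + 1)) := EuclideanSpace.single 0 1
    have hb : ‖b‖ = 1 := by
      show ‖EuclideanSpace.single (0 : Fin (0 + 1)) (1 : ℝ)‖ = 1
      rw [EuclideanSpace.norm_single, norm_one]
    have hd0 : ∀ v w : EuclideanSpace ℝ (Fin (0 + 1)), dist (φ v 0 a) (φ w 0 a) = dist v w := by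
      intro v w
      have h1 := hd v w 0 0 a a le_rfl le_rfl
      have h2 : dist (φ v 0 a) (φ w 0 a) ^ 2 = dist v w ^ 2 := by
        rw [h1]
        ring
      exact (pow_left_inj₀ dist_nonneg dist_nonneg two_ne_zero).1 h2
    refine fixed_of_line O hx hT (y₁ := φ b 0 a) (y₂ := φ (-b) 0 a) ?_ ?_ ?_
    · rw [← h0 a, hd0, dist_zero_right, hb]
    · rw [← h0 a, hd0, dist_zero_right, norm_neg, hb]
    · rw [hd0, dist_eq_norm, sub_neg_eq_add, ← two_smul ℝ b, norm_smul, hb]
      norm_num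
  · rintro ⟨v, hv0, hv⟩ h
    refine h _ _ _ (cone_tangent O hx) (symmetric_of_fixed (k := 1) (W := Submodule.span ℝ {v})
      (finrank_span_singleton hv0) (by norm_num) ?_)
    intro g hg w hw
    obtain ⟨c, rfl⟩ := Submodule.mem_span_singleton.1 hw
    rw [map_smul, hv g hg]

/-- codimension: if every singular point is in `S^1`, no element of a local group other than the identity fixes
two linearly independent vectors -/
theorem codim (O : OrbifoldOn X U) (hCN : ∀ x ∈ U, x ∈ singularSet X → x ∈ stratum X 1) {x : X} (hx : x ∈ U)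
    {g : E5 ≃ₗᵢ[ℝ] E5} (hg : g ∈ O.G x) (hg1 : g ≠ 1) {v w : E5} (hv : g v = v) (hw : g w = w) :
    ¬ LinearIndependent ℝ ![v, w] := by
  intro hli
  haveI := O.finite x hx
  obtain ⟨t, ht⟩ := exists_param (H := O.G x) v w
  have hp0 : v + t • w ≠ 0 := by
    intro h
    have h1 := LinearIndependent.pair_iff.1 hli 1 t (by rw [one_smul]; exact h)
    exact one_ne_zero h1.1
  have hr := O.rad_pos x hx
  have hpn : 0 < ‖v + t • w‖ := norm_pos_iff.2 hp0
  obtain ⟨s, hs0, hs⟩ : ∃ s : ℝ, 0 < s ∧ s * ‖v + t • w‖ < O.rad x := by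
    refine ⟨O.rad x / (2 * ‖v + t • w‖), by positivity, ?_⟩
    have h1 : O.rad x / (2 * ‖v + t • w‖) * ‖v + t • w‖ = O.rad x / 2 := by
      field_simp
    rw [h1]
    linarith
  have hmem : s • (v + t • w) ∈ Metric.ball (0 : E5) (O.rad x) := by
    rw [mem_ball_zero_iff, norm_smul, Real.norm_of_nonneg hs0.le]
    exact hs
  have hfix : ∀ h : E5 ≃ₗᵢ[ℝ] E5, h ∈ O.G x → h (s • (v + t • w)) = s • (v + t • w) → h v = v ∧ h w = w := by
    intro h hh h1
    rw [map_smul] at h1
    exact ht h hh (smul_right_injective _ hs0.ne' h1)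
  obtain ⟨k, hk⟩ := O.chart_group x hx _ hmem
  have hyU := O.chart_mem x hx _ hmem
  have hyG : O.G (O.chart x (s • (v + t • w))) ≠ ⊥ :=
    (ne_bot_chart O hx hmem).2 ⟨g, hg, hg1, by rw [map_smul, map_add, map_smul, hv, hw]⟩
  generalize O.chart x (s • (v + t • w)) = y at hk hyU hyG
  haveI := O.finite y hyU
  have hyS := hCN y hyU (mem_singular O hyU hyG)
  -- two fixed vectors
  have hli2 : LinearIndependent ℝ ![k v, k w] := by
    have h2 := hli.map' k.toLinearEquiv.toLinearMap (LinearEquiv.ker _)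
    have h3 : ![k v, k w] = k.toLinearEquiv.toLinearMap ∘ ![v, w] := by
      funext i
      fin_cases i <;> rfl
    rw [h3]
    exact h2
  have hW : ∀ h ∈ O.G y, ∀ z ∈ Submodule.span ℝ (Set.range ![k v, k w]), h z = z := by
    intro h hh z hz
    obtain ⟨h1, h2⟩ := (hk h).1 hh
    obtain ⟨h3, h4⟩ := hfix _ h1 h2
    have h5 : Submodule.span ℝ (Set.range ![k v, k w]) ≤ fx h := by
      rw [Submodule.span_le]
      rintro _ ⟨i, rfl⟩
      fin_cases i
      · exact conj_fix h3
      · exact conj_fix h4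
    exact h5 hz
  have hfr : Module.finrank ℝ (Submodule.span ℝ (Set.range ![k v, k w])) = 2 := by
    rw [finrank_span_eq_card hli2, Fintype.card_fin]
  exact hyS _ _ _ (cone_tangent O hyU) (symmetric_of_fixed hfr (by norm_num) hW)

/-- the line at a point -/
theorem line_at (O : OrbifoldOn X U) (hCN : ∀ x ∈ U, x ∈ singularSet X → x ∈ stratum X 1) {x : X} (hx : x ∈ U) :
    ∃ u : E5, ‖u‖ = 1 ∧ ∀ g ∈ O.G x, (g u = u ∨ g u = -u) ∧ (g ≠ 1 → ∀ w, g w = w → ∃ c : ℝ, w = c • u) := by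
  haveI := O.finite x hx
  refine line (by rw [finrank_E5]; decide) (by rw [finrank_E5]; norm_num) (O.G x) ?_
  intro g hg hg1
  by_contra hcon
  push Not at hcon
  have h1 : 1 < Module.finrank ℝ (fx g) := by omega
  obtain ⟨v, hv0⟩ : ∃ v : fx g, v ≠ 0 := by
    rw [← Module.finrank_pos_iff_exists_ne_zero (R := ℝ)]
    omega
  obtain ⟨w, hw⟩ := exists_linearIndependent_pair_of_one_lt_finrank h1 hv0
  refine codim O hCN hx hg hg1 v.2 w.2 ?_
  have h2 := hw.map' (fx g).subtype (Submodule.ker_subtype _)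
  have h3 : ![v.1, w.1] = (fx g).subtype ∘ ![v, w] := by
    funext i
    fin_cases i <;> rfl
  rw [h3]
  exact h2

/-- the singular points are those with a nontrivial local group -/
theorem singular_iff (O : OrbifoldOn X U) (hCN : ∀ x ∈ U, x ∈ singularSet X → x ∈ stratum X 1) {x : X} (hx : x ∈ U) :
    x ∈ singularSet X ↔ O.G x ≠ ⊥ :=
  ⟨fun h => ne_bot_of_stratum O hx (hCN x hx h), mem_singular O hx⟩

theorem stratum_iff (O : OrbifoldOn X U) (hCN : ∀ x ∈ U, x ∈ singularSet X → x ∈ stratum X 1) {x : X} (hx : x ∈ U) :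
    x ∈ stratum X 1 ↔ O.G x ≠ ⊥ :=
  ⟨ne_bot_of_stratum O hx, fun h => hCN x hx (mem_singular O hx h)⟩

/-- the group at another point of the chart fixes a vector -/
theorem fixed_chart (O : OrbifoldOn X U) {x : X} (hx : x ∈ U) {v : E5} (hv : v ∈ Metric.ball (0 : E5) (O.rad x))
    (hv0 : v ≠ 0) : ∃ w : E5, w ≠ 0 ∧ ∀ g ∈ O.G (O.chart x v), g w = w := by
  obtain ⟨k, hk⟩ := O.chart_group x hx v hv
  refine ⟨k v, fun e => hv0 ?_, fun g hg => conj_fix ((hk g).1 hg).2⟩
  have h1 := k.norm_map v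
  rw [e, norm_zero] at h1
  exact norm_eq_zero.1 h1.symm

end OL86
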