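import Pool.Agent.H86.OL.N
import Pool.Agent.H86.OL.Cd

/-! # The singular set near an orbifold point -/

set_option autoImplicit false

namespace OL86

open Set Filter Topology

variable {X : Type} [MetricSpace X] {U : Set X}

theorem mem_ball_smul {u : E5} (hu : ‖u‖ = 1) {c r : ℝ} (h : |c| < r) : c • u ∈ Metric.ball (0 : E5) r := by
  rw [mem_ball_zero_iff, norm_smul, hu, mul_one, Real.norm_eq_abs]
  exact h

theorem smul_inj {u : E5} (hu : ‖u‖ = 1) {c d : ℝ} (h : c • u = d • u) : c = d := by
  have hu0 : u ≠ 0 := fun h => by rw [h, norm_zero] at hu; exact zero_ne_one hu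
  exact smul_left_injective ℝ hu0 h

/-- a neighbourhood of the centre -/
theorem nhd (O : OrbifoldOn X U) {x : X} (hx : x ∈ U) {s : ℝ} (hs : 0 < s) (hsr : s ≤ O.rad x) :
    O.chart x '' Metric.ball (0 : E5) s ∈ 𝓝 x := by
  apply (O.chart_open x hx _ (Metric.ball_subset_ball hsr) Metric.isOpen_ball).mem_nhds
  exact ⟨0, Metric.mem_ball_self hs, O.chart_zero x hx⟩

/-- the four shapes -/
theorem shapes (O : OrbifoldOn X U) (hCN : ∀ x ∈ U, x ∈ singularSet X → x ∈ stratum X 1) {x : X} (hx : x ∈ U) :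
    ((x ∉ singularSet X ∧ ∀ᶠ y in 𝓝 x, y ∉ singularSet X) ∨
      (x ∈ singularSet X ∧ x ∈ stratum X 0 ∧ (∀ g, g ∈ O.G x ↔ g = 1 ∨ g = LinearIsometryEquiv.neg ℝ) ∧
        ∀ᶠ y in 𝓝 x, (y ∈ singularSet X ↔ y = x)) ∨
      (x ∈ singularSet X ∧ x ∉ stratum X 0 ∧ ∃ c : ℝ → X, ContinuousOn c (Icc (-1) 1) ∧ InjOn c (Icc (-1) 1) ∧ c 0 = x ∧
        (∀ t ∈ Icc (-1 : ℝ) 1, c t ∈ U ∧ c t ∈ stratum X 1 \ stratum X 0) ∧
        ∀ᶠ y in 𝓝 x, (y ∈ singularSet X ↔ y ∈ c '' Icc (-1) 1)) ∨
      (x ∈ singularSet X ∧ x ∈ stratum X 0 ∧ ∃ c : ℝ → X, ContinuousOn c (Icc 0 1) ∧ InjOn c (Icc 0 1) ∧ c 0 = x ∧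
        (∀ t ∈ Ioc (0 : ℝ) 1, c t ∈ U ∧ c t ∈ stratum X 1 \ stratum X 0) ∧
        ∀ᶠ y in 𝓝 x, (y ∈ singularSet X ↔ y ∈ c '' Icc 0 1))) := by
  obtain ⟨u, hu, hline⟩ := line_at O hCN hx
  have hu0 : u ≠ 0 := fun h => by rw [h, norm_zero] at hu; exact zero_ne_one hu
  have hr := O.rad_pos x hx
  have hr2 : 0 < O.rad x / 2 := by linarith
  have hsc : ∀ v ∈ Metric.ball (0 : E5) (O.rad x), (O.chart x v ∈ singularSet X ↔ ∃ g ∈ O.G x, g ≠ 1 ∧ g v = v) := by
    intro v hv
    rw [singular_iff O hCN (O.chart_mem x hx v hv), ne_bot_chart O hx hv]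
  have hoc : ∀ v ∈ Metric.ball (0 : E5) (O.rad x), v ≠ 0 → (∃ g ∈ O.G x, g ≠ 1 ∧ g v = v) →
      O.chart x v ∈ stratum X 1 \ stratum X 0 := by
    intro v hv hv0 h
    exact ⟨(stratum_iff O hCN (O.chart_mem x hx v hv)).2 ((ne_bot_chart O hx hv).2 h),
      (notMem_zero O (O.chart_mem x hx v hv)).2 (fixed_chart O hx hv hv0)⟩
  have hxs' : x ∈ singularSet X ↔ O.G x ≠ ⊥ := singular_iff O hCN hx
  -- coordinates of singular points are on the line
  have hS : ∀ v ∈ Metric.ball (0 : E5) (O.rad x), O.chart x v ∈ singularSet X → ∃ t : ℝ, v = t • u := by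
    intro v hv hs
    obtain ⟨g, hg, hg1, hgv⟩ := (hsc v hv).1 hs
    exact (hline g hg).2 hg1 v hgv
  by_cases hI : ∃ g ∈ O.G x, g ≠ 1 ∧ g u = u
  · have hsing : ∀ t : ℝ, |t| < O.rad x → O.chart x (t • u) ∈ singularSet X := by
      intro t ht
      obtain ⟨g, hg, hg1, hgu⟩ := hI
      exact (hsc _ (mem_ball_smul hu ht)).2 ⟨g, hg, hg1, by rw [map_smul, hgu]⟩
    have hone : ∀ t : ℝ, |t| < O.rad x → t ≠ 0 → O.chart x (t • u) ∈ stratum X 1 \ stratum X 0 := by
      intro t ht ht0
      obtain ⟨g, hg, hg1, hgu⟩ := hI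
      exact hoc _ (mem_ball_smul hu ht) (smul_ne_zero ht0 hu0) ⟨g, hg, hg1, by rw [map_smul, hgu]⟩
    have hxs : x ∈ singularSet X := by
      have h1 := hsing 0 (by rw [abs_zero]; exact hr)
      rwa [zero_smul, O.chart_zero x hx] at h1
    by_cases hA : ∀ g ∈ O.G x, g u = u
    · -- a line through `x`
      have hx1 : x ∈ stratum X 1 \ stratum X 0 := ⟨hCN x hx hxs, (notMem_zero O hx).2 ⟨u, hu0, hA⟩⟩
      have hb : ∀ t ∈ Icc (-1 : ℝ) 1, |O.rad x / 2 * t| < O.rad x := by
        intro t ht
        rw [abs_mul, abs_of_pos hr2]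
        have h2 : |t| ≤ 1 := abs_le.2 ht
        nlinarith [abs_nonneg t]
      have hcont : ContinuousOn (fun t : ℝ => O.chart x ((O.rad x / 2 * t) • u)) (Icc (-1) 1) := by
        apply (O.chart_cont x hx).comp (Continuous.continuousOn (by fun_prop))
        intro t ht
        exact mem_ball_smul hu (hb t ht)
      have hinj : InjOn (fun t : ℝ => O.chart x ((O.rad x / 2 * t) • u)) (Icc (-1) 1) := by
        intro s hs t ht hst
        obtain ⟨g, hg, hgv⟩ := (O.chart_eq x hx _ (mem_ball_smul hu (hb s hs)) _ (mem_ball_smul hu (hb t ht))).1 hst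
        rw [map_smul, hA g hg] at hgv
        exact mul_left_cancel₀ hr2.ne' (smul_inj hu hgv)
      have h0 : (fun t : ℝ => O.chart x ((O.rad x / 2 * t) • u)) 0 = x := by
        simp only [mul_zero, zero_smul]
        exact O.chart_zero x hx
      have hones : ∀ t ∈ Icc (-1 : ℝ) 1, (fun t : ℝ => O.chart x ((O.rad x / 2 * t) • u)) t ∈ stratum X 1 \ stratum X 0 := by
        intro t ht
        by_cases ht0 : t = 0
        · rw [ht0, h0]; exact hx1
        · exact hone _ (hb t ht) (mul_ne_zero hr2.ne' ht0)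
      have hnear : ∀ᶠ y in 𝓝 x,
          (y ∈ singularSet X ↔ y ∈ (fun t : ℝ => O.chart x ((O.rad x / 2 * t) • u)) '' Icc (-1) 1) := by
        filter_upwards [nhd O hx hr2 (by linarith)] with y hy
        obtain ⟨v, hv, rfl⟩ := hy
        constructor
        · intro hs
          obtain ⟨t, rfl⟩ := hS v (Metric.ball_subset_ball (by linarith) hv) hs
          rw [mem_ball_zero_iff, norm_smul, hu, mul_one, Real.norm_eq_abs] at hv
          refine ⟨t / (O.rad x / 2), ?_, ?_⟩
          · rw [mem_Icc, ← abs_le, abs_div, abs_of_pos hr2, div_le_one hr2]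
            exact hv.le
          · simp only []
            rw [mul_div_cancel₀ t hr2.ne']
        · rintro ⟨t, ht, hty⟩
          rw [← hty]
          exact hsing _ (hb t ht)
      exact Or.inr (Or.inr (Or.inl ⟨hxs, hx1.2, _, hcont, hinj, h0,
        fun t ht => ⟨O.chart_mem x hx _ (mem_ball_smul hu (hb t ht)), hones t ht⟩, hnear⟩))
    · -- a half line
      push Not at hA
      obtain ⟨g0, hg0, hg0u⟩ := hA
      have hg0n : g0 u = -u := ((hline g0 hg0).1).resolve_left hg0u
      have hx1 : x ∈ stratum X 0 := by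
        by_contra hcon
        obtain ⟨v, hv0, hv⟩ := (notMem_zero O hx).1 hcon
        obtain ⟨g, hg, hg1, hgu⟩ := hI
        obtain ⟨c, hc⟩ := (hline g hg).2 hg1 v (hv g hg)
        have h1 := hv g0 hg0
        rw [hc, map_smul, hg0n, smul_neg] at h1
        have hc0 : c ≠ 0 := fun e => hv0 (by rw [hc, e, zero_smul])
        have h2 : c • u = 0 := by
          have h3 : (2 : ℝ) • (c • u) = 0 := by
            rw [two_smul]
            nth_rewrite 1 [← h1]
            rw [neg_add_cancel]
          exact (smul_eq_zero.1 h3).resolve_left two_ne_zero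
        exact (smul_ne_zero hc0 hu0) h2
      have hb : ∀ t ∈ Icc (0 : ℝ) 1, |O.rad x / 2 * t| < O.rad x := by
        intro t ht
        rw [abs_mul, abs_of_pos hr2, abs_of_nonneg ht.1]
        nlinarith [ht.1, ht.2]
      have hcont : ContinuousOn (fun t : ℝ => O.chart x ((O.rad x / 2 * t) • u)) (Icc 0 1) := by
        apply (O.chart_cont x hx).comp (Continuous.continuousOn (by fun_prop))
        intro t ht
        exact mem_ball_smul hu (hb t ht)
      have hinj : InjOn (fun t : ℝ => O.chart x ((O.rad x / 2 * t) • u)) (Icc 0 1) := by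
        intro s hs t ht hst
        obtain ⟨g, hg, hgv⟩ := (O.chart_eq x hx _ (mem_ball_smul hu (hb s hs)) _ (mem_ball_smul hu (hb t ht))).1 hst
        rw [map_smul] at hgv
        rcases (hline g hg).1 with h1 | h1
        · rw [h1] at hgv
          exact mul_left_cancel₀ hr2.ne' (smul_inj hu hgv)
        · rw [h1, smul_neg, ← neg_smul] at hgv
          have h2 := smul_inj hu hgv
          have h3 : O.rad x / 2 * s + O.rad x / 2 * t = 0 := by linarith
          have h4 : 0 ≤ O.rad x / 2 * s := mul_nonneg hr2.le hs.1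
          have h5 : 0 ≤ O.rad x / 2 * t := mul_nonneg hr2.le ht.1
          have h6 : O.rad x / 2 * s = 0 := by linarith
          have h7 : O.rad x / 2 * t = 0 := by linarith
          have h8 : s = 0 := (mul_eq_zero.1 h6).resolve_left hr2.ne'
          have h9 : t = 0 := (mul_eq_zero.1 h7).resolve_left hr2.ne'
          rw [h8, h9]
      have h0 : (fun t : ℝ => O.chart x ((O.rad x / 2 * t) • u)) 0 = x := by
        simp only [mul_zero, zero_smul]
        exact O.chart_zero x hx
      have hones : ∀ t ∈ Ioc (0 : ℝ) 1, (fun t : ℝ => O.chart x ((O.rad x / 2 * t) • u)) t ∈ stratum X 1 \ stratum X 0 := by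
        intro t ht
        exact hone _ (hb t ⟨ht.1.le, ht.2⟩) (mul_ne_zero hr2.ne' ht.1.ne')
      have hnear : ∀ᶠ y in 𝓝 x,
          (y ∈ singularSet X ↔ y ∈ (fun t : ℝ => O.chart x ((O.rad x / 2 * t) • u)) '' Icc 0 1) := by
        filter_upwards [nhd O hx hr2 (by linarith)] with y hy
        obtain ⟨v, hv, rfl⟩ := hy
        constructor
        · intro hs
          obtain ⟨t, rfl⟩ := hS v (Metric.ball_subset_ball (by linarith) hv) hs
          rw [mem_ball_zero_iff, norm_smul, hu, mul_one, Real.norm_eq_abs] at hv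
          refine ⟨|t| / (O.rad x / 2), ?_, ?_⟩
          · rw [mem_Icc]
            exact ⟨by positivity, by rw [div_le_one hr2]; exact hv.le⟩
          · simp only []
            rw [mul_div_cancel₀ |t| hr2.ne']
            rcases abs_choice t with h1 | h1
            · rw [h1]
            · rw [h1]
              refine (O.chart_eq x hx _ (mem_ball_smul hu (by rw [abs_neg]; linarith)) _
                (mem_ball_smul hu (by linarith))).2 ⟨g0, hg0, ?_⟩
              rw [map_smul, hg0n, smul_neg, neg_smul, neg_neg]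
        · rintro ⟨t, ht, hty⟩
          rw [← hty]
          exact hsing _ (hb t ht)
      exact Or.inr (Or.inr (Or.inr ⟨hxs, hx1, _, hcont, hinj, h0,
        fun t ht => ⟨O.chart_mem x hx _ (mem_ball_smul hu (hb t ⟨ht.1.le, ht.2⟩)), hones t ht⟩, hnear⟩))
  · push Not at hI
    -- only the centre can be singular
    have hS0 : ∀ v ∈ Metric.ball (0 : E5) (O.rad x), O.chart x v ∈ singularSet X → v = 0 := by
      intro v hv hs
      obtain ⟨g, hg, hg1, hgv⟩ := (hsc v hv).1 hs
      obtain ⟨c, hc⟩ := (hline g hg).2 hg1 v hgv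
      by_contra hv0
      have hc0 : c ≠ 0 := fun e => hv0 (by rw [hc, e, zero_smul])
      apply hI g hg hg1
      rw [hc, map_smul] at hgv
      exact smul_right_injective _ hc0 hgv
    by_cases hxs : x ∈ singularSet X
    · have hnear : ∀ᶠ y in 𝓝 x, (y ∈ singularSet X ↔ y = x) := by
        filter_upwards [nhd O hx hr le_rfl] with y hy
        obtain ⟨v, hv, rfl⟩ := hy
        constructor
        · intro hs
          rw [hS0 v hv hs, O.chart_zero x hx]
        · intro h
          rw [h]
          exact hxs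
      have hneg : ∀ g ∈ O.G x, g ≠ 1 → g = LinearIsometryEquiv.neg ℝ := by
        intro g hg hg1
        have h1 : g u = -u := ((hline g hg).1).resolve_left (hI g hg hg1)
        have h2 : g * g = 1 := by
          by_contra h3
          apply hI _ ((O.G x).mul_mem hg hg) h3
          rw [mul_ap, h1, map_neg, h1, neg_neg]
        ext1 v
        have h3 : g (v + g v) = v + g v := by
          rw [map_add, ← mul_ap, h2, one_ap, add_comm]
        obtain ⟨c, hc⟩ := (hline g hg).2 hg1 _ h3
        have h4 : v + g v = 0 := by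
          by_contra h5
          have hc0 : c ≠ 0 := fun e => h5 (by rw [hc, e, zero_smul])
          apply hI g hg hg1
          rw [hc, map_smul] at h3
          exact smul_right_injective _ hc0 h3
        rw [eq_neg_of_add_eq_zero_right h4]
        rfl
      obtain ⟨⟨g1, hg1⟩, hg1'⟩ := (Subgroup.ne_bot_iff_exists_ne_one).1 (hxs'.1 hxs)
      have hg2 := hneg g1 hg1 (fun e => hg1' (Subtype.ext e))
      have hG : ∀ g, g ∈ O.G x ↔ g = 1 ∨ g = LinearIsometryEquiv.neg ℝ := by
        intro g
        constructor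
        · intro hg
          by_cases hg1 : g = 1
          · exact Or.inl hg1
          · exact Or.inr (hneg g hg hg1)
        · rintro (rfl | rfl)
          · exact (O.G x).one_mem
          · rw [← hg2]
            exact hg1
      have hx0 : x ∈ stratum X 0 := by
        by_contra hcon
        obtain ⟨v, hv0, hv⟩ := (notMem_zero O hx).1 hcon
        have h1 := hv g1 hg1
        rw [hg2] at h1
        have h2 : -v = v := h1
        have h3 : (2 : ℝ) • v = 0 := by
          rw [two_smul]
          nth_rewrite 1 [← h2]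
          rw [neg_add_cancel]
        exact hv0 ((smul_eq_zero.1 h3).resolve_left two_ne_zero)
      exact Or.inr (Or.inl ⟨hxs, hx0, hG, hnear⟩)
    · left
      refine ⟨hxs, ?_⟩
      filter_upwards [nhd O hx hr le_rfl] with y hy
      obtain ⟨v, hv, rfl⟩ := hy
      intro hs
      apply hxs
      have h1 := hS0 v hv hs
      rwa [h1, O.chart_zero x hx] at hs

end OL86
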