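import Pool.Agent.H86.OL.T

/-! # A flat cone whose group fixes a `k`-dimensional space is `k`-symmetric -/

set_option autoImplicit false

namespace OL86

open Filter Topology InnerProductGeometry

attribute [local instance] act

/-- the unit sphere of the orthogonal complement of `W` -/
def Sp (W : Submodule ℝ E5) : Type := {v : E5 // v ∈ Wᗮ ∧ ‖v‖ = 1}

theorem Sp.ne {W : Submodule ℝ E5} (a : Sp W) : a.1 ≠ 0 := fun h => by
  have h1 := a.2.2
  rw [h, norm_zero] at h1
  exact zero_ne_one h1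

noncomputable instance spMetric (W : Submodule ℝ E5) : MetricSpace (Sp W) where
  dist a b := angle a.1 b.1
  dist_self a := angle_self a.ne
  dist_comm a b := angle_comm _ _
  dist_triangle a b c := angle_le_angle_add_angle _ _ _
  eq_of_dist_eq_zero := by
    intro a b h
    obtain ⟨-, r, hr, hb⟩ := angle_eq_zero_iff.1 h
    have h1 := b.2.2
    rw [hb, norm_smul, a.2.2, mul_one, Real.norm_of_nonneg hr.le] at h1
    rw [h1, one_smul] at hb
    exact Subtype.ext hb.symm

theorem sp_dist {W : Submodule ℝ E5} (a b : Sp W) : dist a b = angle a.1 b.1 := rfl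

theorem angle_tendsto {c : E5} (hc : c ≠ 0) : Tendsto (fun x : E5 => angle x c) (𝓝 c) (𝓝 0) := by
  have h2 : ContinuousAt (fun y : E5 × E5 => angle y.1 y.2) (c, c) := continuousAt_angle hc hc
  have h3 : Tendsto (fun x : E5 => (x, c)) (𝓝 c) (𝓝 (c, c)) :=
    (continuous_id.prodMk continuous_const).tendsto c
  have h4 := Filter.Tendsto.comp h2 h3
  have h5 : (fun y : E5 × E5 => angle y.1 y.2) (c, c) = 0 := angle_self hc
  rw [h5] at h4
  exact h4

theorem sp_compact (W : Submodule ℝ E5) : CompactSpace (Sp W) := by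
  have hK : IsCompact ((Wᗮ : Set E5) ∩ Metric.sphere 0 1) := (isCompact_sphere _ _).inter_left W.isClosed_orthogonal
  haveI : CompactSpace ↥((Wᗮ : Set E5) ∩ Metric.sphere 0 1) := isCompact_iff_compactSpace.1 hK
  let f : ↥((Wᗮ : Set E5) ∩ Metric.sphere 0 1) → Sp W := fun v => ⟨v.1, v.2.1, mem_sphere_zero_iff_norm.1 v.2.2⟩
  have hf : Continuous f := by
    rw [continuous_iff_continuousAt]
    intro a
    have ha : (f a).1 ≠ 0 := (f a).ne
    have h2 : Tendsto (fun x : E5 => angle x a.1) (𝓝 a.1) (𝓝 0) := angle_tendsto ha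
    have h3 : Tendsto (fun x : ↥((Wᗮ : Set E5) ∩ Metric.sphere 0 1) => x.1) (𝓝 a) (𝓝 a.1) :=
      continuous_subtype_val.tendsto a
    have h1 : Tendsto ((fun x : E5 => angle x a.1) ∘ (fun x : ↥((Wᗮ : Set E5) ∩ Metric.sphere 0 1) => x.1)) (𝓝 a) (𝓝 0) :=
      h2.comp h3
    rw [ContinuousAt, tendsto_iff_dist_tendsto_zero]
    exact h1
  constructor
  have h1 : (Set.univ : Set (Sp W)) = f '' Set.univ := by
    rw [Set.image_univ]
    exact (Set.range_eq_univ.2 (fun v => ⟨⟨v.1, v.2.1, mem_sphere_zero_iff_norm.2 v.2.2⟩, rfl⟩)).symm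
  rw [h1]
  exact isCompact_univ.image hf

/-- the action on the sphere -/
@[reducible] noncomputable def spAct (H : Subgroup (E5 ≃ₗᵢ[ℝ] E5)) (W : Submodule ℝ E5) (hW : ∀ g ∈ H, ∀ w ∈ W, g w = w) :
    MulAction H (Sp W) where
  smul g a := ⟨g.1 a.1, by
    rw [Submodule.mem_orthogonal]
    intro w hw
    have h1 := g.1.inner_map_map w a.1
    rw [hW g.1 g.2 w hw] at h1
    rw [h1]
    exact (Submodule.mem_orthogonal _ _).1 a.2.1 w hw, by rw [g.1.norm_map]; exact a.2.2⟩
  one_smul _ := rfl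
  mul_smul _ _ _ := rfl

theorem symmetric_of_fixed {H : Subgroup (E5 ≃ₗᵢ[ℝ] E5)} [Finite H] {W : Submodule ℝ E5} {k : ℕ}
    (hk : Module.finrank ℝ W = k) (hk5 : k < 5) (hW : ∀ g ∈ H, ∀ w ∈ W, g w = w) :
    IsSymmetric k (Cone H) (pr H 0) := by
  classical
  letI := spAct H W hW
  haveI : IsIsometricSMul H (Sp W) := ⟨fun g => Isometry.of_dist_eq (fun a b => by
    show angle (g.1 a.1) (g.1 b.1) = angle a.1 b.1
    exact g.1.toLinearIsometry.angle_map _ _)⟩
  haveI := sp_compact W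
  -- the complement is not trivial
  obtain ⟨a0⟩ : Nonempty (Sp W) := by
    have h1 := Submodule.finrank_add_finrank_orthogonal W
    rw [hk, finrank_euclideanSpace, Fintype.card_fin] at h1
    have h2 : Wᗮ ≠ ⊥ := by
      intro h
      rw [h, finrank_bot] at h1
      omega
    obtain ⟨v, hv, hv0⟩ := (Submodule.ne_bot_iff _).1 h2
    have hnv : ‖v‖ ≠ 0 := norm_ne_zero_iff.2 hv0
    exact ⟨⟨‖v‖⁻¹ • v, Submodule.smul_mem _ _ hv, by rw [norm_smul, norm_inv, norm_norm, inv_mul_cancel₀ hnv]⟩⟩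
  let b := (stdOrthonormalBasis ℝ W).reindex (finCongr hk)
  let e : EuclideanSpace ℝ (Fin k) ≃ₗᵢ[ℝ] W := b.repr.symm
  let φ : EuclideanSpace ℝ (Fin k) → ℝ → Quo H (Sp W) → Cone H := fun v s p =>
    pr H ((e v : E5) + s • (pr_surj p).choose.1)
  refine ⟨Quo H (Sp W), inferInstance, φ, quo_compact, ?_, ?_, ?_⟩
  · intro v w s t p q hs ht
    set a := (pr_surj p).choose with ha
    have hap : pr H a = p := (pr_surj p).choose_spec
    set c := (pr_surj q).choose with hc
    have hcq : pr H c = q := (pr_surj q).choose_spec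
    show dist (pr H ((e v : E5) + s • a.1)) (pr H ((e w : E5) + t • c.1)) ^ 2 = _
    have hN : ∀ g ∈ H, ‖((e v : E5) + s • a.1) - g ((e w : E5) + t • c.1)‖ ^ 2 =
        dist v w ^ 2 + (s ^ 2 + t ^ 2 - 2 * s * t * Real.cos (angle a.1 (g c.1))) := by
      intro g hg
      have h1 : ((e v : E5) + s • a.1) - g ((e w : E5) + t • c.1) = ((e v - e w : W) : E5) + (s • a.1 - t • g c.1) := by
        rw [map_add, map_smul, hW g hg _ (e w).2, Submodule.coe_sub]
        abel
      have hgc : g c.1 ∈ Wᗮ := ((⟨g, hg⟩ : H) • c).2.1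
      have h2 : inner ℝ ((e v - e w : W) : E5) (s • a.1 - t • g c.1) = 0 :=
        (Submodule.mem_orthogonal _ _).1 (Submodule.sub_mem _ (Submodule.smul_mem _ _ a.2.1) (Submodule.smul_mem _ _ hgc)) _
          (e v - e w : W).2
      rw [h1, sq, norm_add_sq_eq_norm_sq_add_norm_sq_of_inner_eq_zero _ _ h2]
      have h3 : ‖((e v - e w : W) : E5)‖ = dist v w := by
        rw [← map_sub]
        show ‖e (v - w)‖ = _
        rw [e.norm_map, dist_eq_norm]
      rw [h3, ← sq, ← sq, norm_sub_sq_real, norm_smul, norm_smul, g.norm_map, a.2.2, c.2.2, real_inner_smul_left,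
        real_inner_smul_right, cos_angle, g.norm_map, a.2.2, c.2.2, Real.norm_of_nonneg hs, Real.norm_of_nonneg ht]
      ring
    obtain ⟨g1, hg1⟩ := dist_ex (K := H) a c
    rw [hap, hcq] at hg1
    have hd1 : dist p q = angle a.1 (g1.1 c.1) := hg1
    have hle : ∀ g ∈ H, dist p q ≤ angle a.1 (g c.1) := by
      intro g hg
      have h1 := dist_le (K := H) a c ⟨g, hg⟩
      rw [hap, hcq] at h1
      exact h1
    rw [min_eq_left (by rw [hd1]; exact angle_le_pi _ _)]
    apply le_antisymm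
    · have h1 := cdist_le ((e v : E5) + s • a.1) ((e w : E5) + t • c.1) g1.1 g1.2
      have h2 := pow_le_pow_left₀ dist_nonneg h1 2
      rw [hN g1.1 g1.2, ← hd1] at h2
      exact h2
    · obtain ⟨g2, hg2, h1⟩ := cdist_ex (H := H) ((e v : E5) + s • a.1) ((e w : E5) + t • c.1)
      rw [h1, hN g2 hg2]
      have h2 : Real.cos (angle a.1 (g2 c.1)) ≤ Real.cos (dist p q) :=
        Real.cos_le_cos_of_nonneg_of_le_pi dist_nonneg (angle_le_pi _ _) (hle g2 hg2)
      have h3 : 2 * s * t * Real.cos (angle a.1 (g2 c.1)) ≤ 2 * s * t * Real.cos (dist p q) :=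
        mul_le_mul_of_nonneg_left h2 (by positivity)
      linarith
  · intro p
    obtain ⟨x, rfl⟩ := pr_surj p
    obtain ⟨y, hy, z, hz, rfl⟩ := W.exists_add_mem_mem_orthogonal x
    by_cases hz0 : z = 0
    · refine ⟨e.symm ⟨y, hy⟩, 0, pr H a0, le_rfl, ?_⟩
      show pr H ((e (e.symm ⟨y, hy⟩) : E5) + (0 : ℝ) • _) = _
      rw [e.apply_symm_apply, zero_smul, hz0]
    · have hnz : ‖z‖ ≠ 0 := norm_ne_zero_iff.2 hz0
      let a : Sp W := ⟨‖z‖⁻¹ • z, Submodule.smul_mem _ _ hz, by rw [norm_smul, norm_inv, norm_norm, inv_mul_cancel₀ hnz]⟩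
      refine ⟨e.symm ⟨y, hy⟩, ‖z‖, pr H a, norm_nonneg z, ?_⟩
      show pr H ((e (e.symm ⟨y, hy⟩) : E5) + ‖z‖ • (pr_surj (pr H a)).choose.1) = _
      have h1 : pr H (pr_surj (pr H a)).choose = pr H a := (pr_surj (pr H a)).choose_spec
      obtain ⟨g, hg⟩ := pr_eq.1 h1
      have h2 : (pr_surj (pr H a)).choose.1 = g.1 (‖z‖⁻¹ • z) := (congrArg Subtype.val hg).symm
      rw [e.apply_symm_apply, h2, map_smul, smul_inv_smul₀ hnz]
      symm
      apply cpr_eq g.1 g.2
      rw [map_add, hW g.1 g.2 y hy]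
  · intro a
    show pr H ((e 0 : E5) + (0 : ℝ) • _) = _
    rw [map_zero, zero_smul, add_zero]
    rfl

end OL86
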