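import Pool.Agent.H86.OL.M
import Pool.Agent.H86.OL.Defs

/-! # Tangent cones of orbifolds -/

set_option autoImplicit false

namespace OL86

open Filter Topology

attribute [local instance] act

instance actIso (H : Subgroup (E5 ≃ₗᵢ[ℝ] E5)) : @IsIsometricSMul H E5 _ (act H).toSMul where
  isometry_smul g := g.1.isometry

/-- the flat cone `ℝ⁵ / H` -/
abbrev Cone (H : Subgroup (E5 ≃ₗᵢ[ℝ] E5)) : Type := Quo H E5

theorem smul_def' {H : Subgroup (E5 ≃ₗᵢ[ℝ] E5)} (g : H) (v : E5) : g • v = g.1 v := rfl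

theorem cdist_le {H : Subgroup (E5 ≃ₗᵢ[ℝ] E5)} [Finite H] (v w : E5) (g : E5 ≃ₗᵢ[ℝ] E5) (hg : g ∈ H) :
    dist (pr H v) (pr H w) ≤ ‖v - g w‖ := by
  have h := dist_le (K := H) v w ⟨g, hg⟩
  rwa [dist_eq_norm] at h

theorem cdist_ex {H : Subgroup (E5 ≃ₗᵢ[ℝ] E5)} [Finite H] (v w : E5) :
    ∃ g ∈ H, dist (pr H v) (pr H w) = ‖v - g w‖ := by
  obtain ⟨g, hg⟩ := dist_ex (K := H) v w
  exact ⟨g.1, g.2, by rw [hg, dist_eq_norm]; rfl⟩

theorem cdist_zero {H : Subgroup (E5 ≃ₗᵢ[ℝ] E5)} [Finite H] (v : E5) : dist (pr H v) (pr H 0) = ‖v‖ := by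
  obtain ⟨g, hg, h⟩ := cdist_ex (H := H) v 0
  rw [h, map_zero, sub_zero]

theorem cpr_eq {H : Subgroup (E5 ≃ₗᵢ[ℝ] E5)} {v w : E5} (g : E5 ≃ₗᵢ[ℝ] E5) (hg : g ∈ H) (h : g v = w) :
    pr H v = pr H w := (pr_eq.2 ⟨⟨g, hg⟩, h⟩).symm

variable {X : Type} [MetricSpace X] {U : Set X}

/-- the asymptotic form of the distance -/
theorem chart_dist' (O : OrbifoldOn X U) {x : X} (hx : x ∈ U) {ε : ℝ} (hε : 0 < ε) :
    ∃ δ > 0, δ ≤ O.rad x ∧ ∀ v w : E5, ‖v‖ < δ → ‖w‖ < δ →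
    (∀ g ∈ O.G x, dist (O.chart x v) (O.chart x w) ≤ ‖v - g w‖ + ε * max ‖v‖ ‖w‖) ∧
    ∃ g ∈ O.G x, ‖v - g w‖ ≤ dist (O.chart x v) (O.chart x w) + ε * max ‖v‖ ‖w‖ := by
  haveI := O.finite x hx
  obtain ⟨δ, hδ, hd⟩ := O.chart_dist x hx ε hε
  refine ⟨min δ (O.rad x), lt_min hδ (O.rad_pos x hx), min_le_right _ _, ?_⟩
  intro v w hv hw
  obtain ⟨h1, h2⟩ := abs_le.1 (hd v w (lt_of_lt_of_le hv (min_le_left _ _)) (lt_of_lt_of_le hw (min_le_left _ _)))
  constructor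
  · intro g hg
    have h3 : coneDist (O.G x) v w ≤ ‖v - g w‖ :=
      ciInf_le (f := fun g : O.G x => ‖v - g.1 w‖) (Set.finite_range _).bddBelow ⟨g, hg⟩
    linarith
  · obtain ⟨g, hg⟩ := exists_eq_ciInf_of_finite (f := fun g : O.G x => ‖v - g.1 w‖)
    refine ⟨g.1, g.2, ?_⟩
    have h3 : coneDist (O.G x) v w = ‖v - g.1 w‖ := hg.symm
    rw [← h3]
    linarith

/-- norms of coordinates -/
theorem norm_bounds (O : OrbifoldOn X U) {x : X} (hx : x ∈ U) {ε δ : ℝ}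
    (hd : ∀ v w : E5, ‖v‖ < δ → ‖w‖ < δ →
    (∀ g ∈ O.G x, dist (O.chart x v) (O.chart x w) ≤ ‖v - g w‖ + ε * max ‖v‖ ‖w‖) ∧
    ∃ g ∈ O.G x, ‖v - g w‖ ≤ dist (O.chart x v) (O.chart x w) + ε * max ‖v‖ ‖w‖) {v : E5} (hv : ‖v‖ < δ) :
    (1 - ε) * ‖v‖ ≤ dist (O.chart x v) x ∧ dist (O.chart x v) x ≤ (1 + ε) * ‖v‖ := by
  have h0 : ‖(0 : E5)‖ < δ := by
    rw [norm_zero]
    exact lt_of_le_of_lt (norm_nonneg v) hv
  obtain ⟨h1, g, hg, h2⟩ := hd v 0 hv h0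
  have h3 := h1 1 (O.G x).one_mem
  rw [O.chart_zero x hx, norm_zero, max_eq_left (norm_nonneg v)] at h2 h3
  rw [map_zero, sub_zero] at h2 h3
  constructor <;> linarith

/-- the flat cone is a tangent cone -/
theorem cone_tangent (O : OrbifoldOn X U) {x : X} (hx : x ∈ U) [Finite (O.G x)] :
    IsTangentCone X x (Cone (O.G x)) (pr (O.G x) 0) := by
  classical
  refine ⟨quo_proper, fun j => 1 / ((j : ℝ) + 1), fun j => by positivity, tendsto_one_div_add_atTop_nhds_zero_nat, ?_⟩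
  intro R hR ε hε
  set e : ℝ := min (1 / 2) (ε / (4 * R)) with he
  have he0 : 0 < e := lt_min (by norm_num) (by positivity)
  have he1 : e ≤ 1 / 2 := min_le_left _ _
  have he2 : e * R ≤ ε / 4 := by
    have h1 : e ≤ ε / (4 * R) := min_le_right _ _
    calc e * R ≤ ε / (4 * R) * R := mul_le_mul_of_nonneg_right h1 hR.le
      _ = ε / 4 := by field_simp
  obtain ⟨δ, hδ, hδr, hd⟩ := chart_dist' O hx he0
  have hnb := fun {v : E5} (hv : ‖v‖ < δ) => norm_bounds O hx hd hv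
  have hnhd : O.chart x '' Metric.ball 0 δ ∈ 𝓝 x := by
    apply (O.chart_open x hx _ (Metric.ball_subset_ball hδr) Metric.isOpen_ball).mem_nhds
    exact ⟨0, Metric.mem_ball_self hδ, O.chart_zero x hx⟩
  obtain ⟨η, hη, hηs⟩ := Metric.mem_nhds_iff.1 hnhd
  have hlim : Tendsto (fun j : ℕ => R * (1 / ((j : ℝ) + 1))) atTop (𝓝 (R * 0)) :=
    tendsto_one_div_add_atTop_nhds_zero_nat.const_mul R
  rw [mul_zero] at hlim
  filter_upwards [hlim.eventually (gt_mem_nhds (lt_min hη hδ))] with j hj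
  have hr0 : 0 < 1 / ((j : ℝ) + 1) := by positivity
  generalize 1 / ((j : ℝ) + 1) = r at hj hr0
  have hj1 : R * r < η := lt_of_lt_of_le hj (min_le_left _ _)
  have hj2 : R * r < δ := lt_of_lt_of_le hj (min_le_right _ _)
  let f : X → Cone (O.G x) := fun a => if h : ∃ v, ‖v‖ < δ ∧ O.chart x v = a then pr (O.G x) (r⁻¹ • h.choose) else pr (O.G x) 0
  have hf : ∀ v : E5, ‖v‖ < δ → ∃ w : E5, ‖w‖ < δ ∧ O.chart x w = O.chart x v ∧ f (O.chart x v) = pr (O.G x) (r⁻¹ • w) := by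
    intro v hv
    have h : ∃ w, ‖w‖ < δ ∧ O.chart x w = O.chart x v := ⟨v, hv, rfl⟩
    refine ⟨h.choose, h.choose_spec.1, h.choose_spec.2, ?_⟩
    show (if h : ∃ w, ‖w‖ < δ ∧ O.chart x w = O.chart x v then pr (O.G x) (r⁻¹ • h.choose) else pr (O.G x) 0) = _
    rw [dif_pos h]
  have hballδ : ∀ {v : E5}, ‖v‖ < δ → v ∈ Metric.ball (0 : E5) (O.rad x) := by
    intro v hv
    rw [mem_ball_zero_iff]
    linarith
  have hcov : ∀ a, dist a x ≤ R * r → ∃ v : E5, ‖v‖ < δ ∧ O.chart x v = a ∧ ‖v‖ ≤ 2 * (R * r) := by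
    intro a ha
    obtain ⟨v, hv, rfl⟩ := hηs (show a ∈ Metric.ball x η from lt_of_le_of_lt ha hj1)
    rw [mem_ball_zero_iff] at hv
    refine ⟨v, hv, rfl, ?_⟩
    have h1 := (hnb hv).1
    nlinarith [norm_nonneg v]
  refine ⟨f, ?_, ?_, ?_⟩
  · obtain ⟨w, hw, hw1, hw2⟩ := hf 0 (by rw [norm_zero]; exact hδ)
    rw [O.chart_zero x hx] at hw2 hw1
    obtain ⟨g, hg, hgw⟩ := (O.chart_eq x hx w (hballδ hw) 0 (Metric.mem_ball_self (O.rad_pos x hx))).1
      (by rw [hw1, O.chart_zero x hx])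
    have h1 : w = 0 := by
      have h2 := g.norm_map w
      rw [hgw, norm_zero] at h2
      exact norm_eq_zero.1 h2.symm
    rw [hw2, h1, smul_zero]
  · intro a b ha hb
    obtain ⟨v', hv', rfl, hvn'⟩ := hcov a ha
    obtain ⟨w', hw', rfl, hwn'⟩ := hcov b hb
    obtain ⟨v, hv, hv1, hv2⟩ := hf v' hv'
    obtain ⟨w, hw, hw1, hw2⟩ := hf w' hw'
    rw [← hv1] at ha hv2 ⊢
    rw [← hw1] at hb hw2 ⊢
    rw [hv2, hw2]
    have hvn : ‖v‖ ≤ 2 * (R * r) := by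
      have h1 := (hnb hv).1
      nlinarith [norm_nonneg v]
    have hwn : ‖w‖ ≤ 2 * (R * r) := by
      have h1 := (hnb hw).1
      nlinarith [norm_nonneg w]
    have hmax : e * max ‖v‖ ‖w‖ ≤ ε / 2 * r := by
      calc e * max ‖v‖ ‖w‖ ≤ e * (2 * (R * r)) := mul_le_mul_of_nonneg_left (max_le hvn hwn) he0.le
        _ = 2 * (e * R) * r := by ring
        _ ≤ 2 * (ε / 4) * r := by
          apply mul_le_mul_of_nonneg_right _ hr0.le
          linarith
        _ = ε / 2 * r := by ring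
    obtain ⟨h1, g, hg, h2⟩ := hd v w hv hw
    have hsc : ∀ k : E5 ≃ₗᵢ[ℝ] E5, ‖r⁻¹ • v - k (r⁻¹ • w)‖ = ‖v - k w‖ / r := by
      intro k
      rw [map_smul, ← smul_sub, norm_smul, norm_inv, Real.norm_eq_abs, abs_of_pos hr0, div_eq_inv_mul]
    have h3 := cdist_le (H := O.G x) (r⁻¹ • v) (r⁻¹ • w) g hg
    rw [hsc] at h3
    obtain ⟨k, hk, h4⟩ := cdist_ex (H := O.G x) (r⁻¹ • v) (r⁻¹ • w)
    rw [hsc] at h4
    have h5 := h1 k hk
    rw [abs_le]
    constructor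
    · rw [h4]
      have h6 : dist (O.chart x v) (O.chart x w) / r ≤ ‖v - k w‖ / r + ε / 2 := by
        rw [div_add' _ _ _ hr0.ne', div_le_div_iff_of_pos_right hr0]
        linarith
      linarith
    · have h6 : ‖v - g w‖ / r ≤ dist (O.chart x v) (O.chart x w) / r + ε / 2 := by
        rw [div_add' _ _ _ hr0.ne', div_le_div_iff_of_pos_right hr0]
        linarith
      linarith
  · intro z hz
    obtain ⟨p, rfl⟩ := pr_surj z
    rw [cdist_zero] at hz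
    have hpn := norm_nonneg p
    have h1 : ‖r • p‖ = r * ‖p‖ := by rw [norm_smul, Real.norm_eq_abs, abs_of_pos hr0]
    have h2 : ‖r • p‖ < δ := by
      rw [h1]
      nlinarith
    refine ⟨O.chart x (r • p), ?_, ?_⟩
    · refine (hnb h2).2.trans ?_
      rw [h1]
      have h3 : (1 + e) * ‖p‖ ≤ R := by nlinarith
      nlinarith
    · obtain ⟨w, hw, hw1, hw2⟩ := hf (r • p) h2
      rw [hw2]
      obtain ⟨g, hg, hgw⟩ := (O.chart_eq x hx w (hballδ hw) (r • p) (hballδ h2)).1 hw1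
      have h3 : pr (O.G x) (r⁻¹ • w) = pr (O.G x) p := by
        apply cpr_eq g hg
        rw [map_smul, hgw, inv_smul_smul₀ hr0.ne']
      rw [h3, dist_self]
      exact hε.le

/-- equality in the triangle inequality -/
theorem neg_of_dist {p q : E5} (h1 : ‖q‖ = ‖p‖) (h2 : 2 * ‖p‖ ≤ ‖p - q‖) : q = -p := by
  have h3 := parallelogram_law_with_norm ℝ p q
  have h4 : ‖p + q‖ * ‖p + q‖ ≤ 0 := by
    rw [h1] at h3
    nlinarith [norm_nonneg p, norm_nonneg (p - q)]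
  have h5 : ‖p + q‖ = 0 := by nlinarith [norm_nonneg (p + q)]
  have h6 : p + q = 0 := norm_eq_zero.1 h5
  exact eq_neg_of_add_eq_zero_right h6

/-- a flat cone isometric to `ℝ⁵` has a trivial group -/
theorem trivial_of_iso {H : Subgroup (E5 ≃ₗᵢ[ℝ] E5)} [Finite H] (h : Nonempty (Cone H ≃ᵢ E5)) : H = ⊥ := by
  obtain ⟨Φ⟩ := h
  rw [Subgroup.eq_bot_iff_forall]
  intro g hg
  ext1 p
  show g p = p
  set o := Φ (pr H 0) with ho
  set P := Φ (pr H p) with hP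
  obtain ⟨q, hq⟩ := pr_surj (Φ.symm (o + (o - P)))
  have hq' : Φ (pr H q) = o + (o - P) := by rw [hq, Φ.apply_symm_apply]
  have h1 : ‖p‖ = ‖o - P‖ := by
    rw [← cdist_zero (H := H) p, ← Φ.dist_eq, dist_eq_norm, ← hP, ← ho, ← norm_neg, neg_sub]
  have h2 : ‖q‖ = ‖p‖ := by
    rw [← cdist_zero (H := H) q, ← Φ.dist_eq, dist_eq_norm, hq', ← ho, add_sub_cancel_left, h1]
  have h3 : dist (pr H p) (pr H q) = 2 * ‖p‖ := by
    rw [← Φ.dist_eq, dist_comm, dist_eq_norm, hq', ← hP, h1]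
    have h4 : o + (o - P) - P = (2 : ℝ) • (o - P) := by rw [two_smul]; abel
    rw [h4, norm_smul, Real.norm_eq_abs, abs_of_pos two_pos]
  have h4 : ∀ k ∈ H, k q = -p := by
    intro k hk
    apply neg_of_dist (by rw [k.norm_map, h2])
    rw [← h3]
    exact cdist_le p q k hk
  have h5 : q = -p := by
    have h6 := h4 1 H.one_mem
    exact h6
  have h6 := h4 g hg
  rw [h5, map_neg] at h6
  exact neg_injective h6

/-- a tangent cone with a line through its vertex gives a vector fixed by the local group -/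
theorem fixed_of_line (O : OrbifoldOn X U) {x : X} (hx : x ∈ U) [Finite (O.G x)] {Y : Type} [MetricSpace Y] {y : Y}
    (hT : IsTangentCone X x Y y) {y₁ y₂ : Y} (h1 : dist y₁ y = 1) (h2 : dist y₂ y = 1) (h12 : dist y₁ y₂ = 2) :
    ∃ v : E5, v ≠ 0 ∧ ∀ g ∈ O.G x, g v = v := by
  classical
  obtain ⟨-, r, hr0, hr, hT⟩ := hT
  set e : ℝ := 1 / 10000 with he
  have he0 : 0 < e := by norm_num [he]
  obtain ⟨δ, hδ, hδr, hd⟩ := chart_dist' O hx he0
  have hnb := fun {v : E5} (hv : ‖v‖ < δ) => norm_bounds O hx hd hv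
  have hnhd : O.chart x '' Metric.ball 0 δ ∈ 𝓝 x := by
    apply (O.chart_open x hx _ (Metric.ball_subset_ball hδr) Metric.isOpen_ball).mem_nhds
    exact ⟨0, Metric.mem_ball_self hδ, O.chart_zero x hx⟩
  obtain ⟨η, hη, hηs⟩ := Metric.mem_nhds_iff.1 hnhd
  have hlim : Tendsto (fun j : ℕ => 2 * r j) atTop (𝓝 (2 * 0)) := hr.const_mul 2
  rw [mul_zero] at hlim
  obtain ⟨j, ⟨f, hfx, hfd, hfs⟩, hjη⟩ := ((hT 2 two_pos e he0).and (hlim.eventually (gt_mem_nhds hη))).exists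
  have hj0 := hr0 j
  generalize r j = ρ at hfd hfs hjη hj0
  obtain ⟨a, ha, ha1⟩ := hfs y₁ (by rw [h1, he]; norm_num)
  obtain ⟨b, hb, hb1⟩ := hfs y₂ (by rw [h2, he]; norm_num)
  have hxx : dist x x ≤ 2 * ρ := by rw [dist_self]; positivity
  obtain ⟨ka, ka'⟩ := abs_le.1 (hfd a x ha hxx)
  obtain ⟨kb, kb'⟩ := abs_le.1 (hfd b x hb hxx)
  obtain ⟨kab, kab'⟩ := abs_le.1 (hfd a b ha hb)
  rw [hfx] at ka kb ka' kb'
  have ta1 : dist (f a) y ≤ 1 + e := by
    have := dist_triangle (f a) y₁ y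
    rw [h1] at this
    linarith
  have ta2 : 1 - e ≤ dist (f a) y := by
    have := dist_triangle y₁ (f a) y
    rw [h1, dist_comm y₁ (f a)] at this
    linarith
  have tb1 : dist (f b) y ≤ 1 + e := by
    have := dist_triangle (f b) y₂ y
    rw [h2] at this
    linarith
  have tb2 : 1 - e ≤ dist (f b) y := by
    have := dist_triangle y₂ (f b) y
    rw [h2, dist_comm y₂ (f b)] at this
    linarith
  have tab : 2 - 2 * e ≤ dist (f a) (f b) := by
    have h3 := dist_triangle y₁ (f a) y₂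
    have h4 := dist_triangle (f a) (f b) y₂
    rw [h12, dist_comm y₁ (f a)] at h3
    linarith
  obtain ⟨v, hv, rfl⟩ := hηs (show a ∈ Metric.ball x η from lt_of_le_of_lt ha hjη)
  obtain ⟨w, hw, rfl⟩ := hηs (show b ∈ Metric.ball x η from lt_of_le_of_lt hb hjη)
  rw [mem_ball_zero_iff] at hv hw
  have nv := hnb hv
  have nw := hnb hw
  have da1 : dist (O.chart x v) x ≤ (1 + 2 * e) * ρ := by
    have h3 : dist (O.chart x v) x / ρ ≤ 1 + 2 * e := by
      have h4 := add_le_add ka ta1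
      linarith only [h4]
    exact (div_le_iff₀ hj0).1 h3
  have db1 : dist (O.chart x w) x ≤ (1 + 2 * e) * ρ := by
    have h3 : dist (O.chart x w) x / ρ ≤ 1 + 2 * e := by
      have h4 := add_le_add kb tb1
      linarith only [h4]
    exact (div_le_iff₀ hj0).1 h3
  have db2 : (1 - 2 * e) * ρ ≤ dist (O.chart x w) x := by
    have h3 : 1 - 2 * e ≤ dist (O.chart x w) x / ρ := by
      have h4 := add_le_add kb' tb2
      linarith only [h4]
    exact (le_div_iff₀ hj0).1 h3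
  have dab : (2 - 3 * e) * ρ ≤ dist (O.chart x v) (O.chart x w) := by
    have h3 : 2 - 3 * e ≤ dist (O.chart x v) (O.chart x w) / ρ := by
      have h4 := add_le_add kab' tab
      linarith only [h4]
    exact (le_div_iff₀ hj0).1 h3
  have hvn : ‖v‖ ≤ (1 + 4 * e) * ρ := by
    rw [he] at nv da1 ⊢
    nlinarith [nv.1]
  have hwn : ‖w‖ ≤ (1 + 4 * e) * ρ := by
    rw [he] at nw db1 ⊢
    nlinarith [nw.1]
  have hwl : (1 - 3 * e) * ρ ≤ ‖w‖ := by
    rw [he] at nw db2 ⊢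
    nlinarith [nw.2]
  have key : ∀ g ∈ O.G x, ‖v + g w‖ ≤ 1 / 10 * ρ := by
    intro g hg
    have h3 := (hd v w hv hw).1 g hg
    have h4 : (2 - 5 * e) * ρ ≤ ‖v - g w‖ := by
      have h5 : e * max ‖v‖ ‖w‖ ≤ e * ((1 + 4 * e) * ρ) := mul_le_mul_of_nonneg_left (max_le hvn hwn) he0.le
      rw [he] at h3 h5 dab ⊢
      nlinarith
    have h5 := parallelogram_law_with_norm ℝ v (g w)
    rw [g.norm_map] at h5
    have h6 : ‖v‖ * ‖v‖ ≤ ((1 + 4 * e) * ρ) * ((1 + 4 * e) * ρ) :=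
      mul_self_le_mul_self (norm_nonneg v) hvn
    have h7 : ‖w‖ * ‖w‖ ≤ ((1 + 4 * e) * ρ) * ((1 + 4 * e) * ρ) :=
      mul_self_le_mul_self (norm_nonneg w) hwn
    have h8 : ((2 - 5 * e) * ρ) * ((2 - 5 * e) * ρ) ≤ ‖v - g w‖ * ‖v - g w‖ := by
      apply mul_self_le_mul_self _ h4
      rw [he]
      apply mul_nonneg _ hj0.le
      norm_num
    have h9 : ‖v + g w‖ * ‖v + g w‖ ≤ (1 / 10 * ρ) * (1 / 10 * ρ) := by
      rw [he] at h6 h7 h8
      nlinarith [mul_pos hj0 hj0]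
    exact abs_le_of_sq_le_sq' (by rw [sq, sq]; exact h9) (by positivity) |>.2
  -- average
  haveI := Fintype.ofFinite (O.G x)
  have hcard : 0 < (Fintype.card (O.G x) : ℝ) := by exact_mod_cast Fintype.card_pos
  refine ⟨∑ g : O.G x, g.1 w, ?_, ?_⟩
  · intro h0
    have h3 : ‖∑ g : O.G x, (w - g.1 w)‖ ≤ Fintype.card (O.G x) * (1 / 5 * ρ) := by
      refine (norm_sum_le _ _).trans ?_
      rw [← nsmul_eq_mul, ← Finset.card_univ, ← Finset.sum_const]
      apply Finset.sum_le_sum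
      intro g _
      have h4 : w - g.1 w = (v + w) - (v + g.1 w) := by abel
      rw [h4]
      have h5 := key 1 (O.G x).one_mem
      rw [one_ap] at h5
      have h6 := key g.1 g.2
      refine (norm_sub_le _ _).trans ?_
      linarith
    rw [Finset.sum_sub_distrib, h0, sub_zero, Finset.sum_const, Finset.card_univ, ← Nat.cast_smul_eq_nsmul ℝ, norm_smul,
      Real.norm_of_nonneg hcard.le] at h3
    have h4 := le_of_mul_le_mul_left h3 hcard
    rw [he] at hwl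
    nlinarith
  · intro g hg
    rw [map_sum]
    have h3 := Equiv.sum_comp (Equiv.mulLeft (⟨g, hg⟩ : O.G x)) (fun k : O.G x => k.1 w)
    rw [← h3]
    rfl

end OL86
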