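import Pool.Agent.H86.OL.Sy

/-! # Uniqueness of the tangent cone at an orbifold point -/

set_option autoImplicit false

namespace OL86

open Filter Topology

attribute [local instance] act

/-- better and better approximations of a proper space by another give a pointed isometry -/
theorem iso_of_approx {C Y : Type} [MetricSpace C] [MetricSpace Y] [ProperSpace C] [ProperSpace Y] {o : C} {y : Y}
    (h : ∀ n : ℕ, ∃ f : C → Y, f o = y ∧
      (∀ a b, dist a o ≤ n → dist b o ≤ n → |dist (f a) (f b) - dist a b| ≤ 1 / ((n : ℝ) + 1)) ∧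
      (∀ z, dist z y ≤ (n : ℝ) - 1 → ∃ a, dist a o ≤ n ∧ dist (f a) z ≤ 1 / ((n : ℝ) + 1))) :
    ∃ Φ : C ≃ᵢ Y, Φ o = y := by
  classical
  choose f hf0 hf hfs using h
  let U : Ultrafilter ℕ := Filter.hyperfilter ℕ
  have hU : (U : Filter ℕ) ≤ atTop := by
    rw [← Nat.cofinite_eq_atTop]
    exact Filter.hyperfilter_le_cofinite
  have hlim0 : Tendsto (fun n : ℕ => 1 / ((n : ℝ) + 1)) U (𝓝 0) :=
    tendsto_one_div_add_atTop_nhds_zero_nat.mono_left hU
  have hlarge : ∀ r : ℝ, ∀ᶠ n : ℕ in (U : Filter ℕ), r ≤ n := fun r =>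
    hU ((tendsto_natCast_atTop_atTop (R := ℝ)).eventually_ge_atTop r)
  have h1n : ∀ n : ℕ, 1 / ((n : ℝ) + 1) ≤ 1 := by
    intro n
    rw [div_le_one (by positivity)]
    have h1 : (0 : ℝ) ≤ n := Nat.cast_nonneg n
    linarith
  have hexC : ∀ (u : ℕ → C) (R : ℝ), (∀ᶠ n in (U : Filter ℕ), dist (u n) o ≤ R) → ∃ z, Tendsto u U (𝓝 z) := by
    intro u R hu
    obtain ⟨z, -, hz⟩ := (isCompact_closedBall o R).ultrafilter_le_nhds (U.map u) (by
      rw [le_principal_iff]
      exact hu)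
    exact ⟨z, hz⟩
  have hexY : ∀ (u : ℕ → Y) (R : ℝ), (∀ᶠ n in (U : Filter ℕ), dist (u n) y ≤ R) → ∃ z, Tendsto u U (𝓝 z) := by
    intro u R hu
    obtain ⟨z, -, hz⟩ := (isCompact_closedBall y R).ultrafilter_le_nhds (U.map u) (by
      rw [le_principal_iff]
      exact hu)
    exact ⟨z, hz⟩
  have hΦex : ∀ c : C, ∃ z, Tendsto (fun n => f n c) U (𝓝 z) := by
    intro c
    apply hexY _ (dist c o + 1)
    filter_upwards [hlarge (dist c o)] with n hn
    have h1 := (abs_le.1 (hf n c o hn (by rw [dist_self]; exact Nat.cast_nonneg n))).2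
    rw [hf0 n] at h1
    linarith [h1n n]
  choose Φ hΦ using hΦex
  have hiso : ∀ a b, dist (Φ a) (Φ b) = dist a b := by
    intro a b
    have h1 : Tendsto (fun n => dist (f n a) (f n b)) U (𝓝 (dist (Φ a) (Φ b))) := (hΦ a).dist (hΦ b)
    have h2 : Tendsto (fun n => dist (f n a) (f n b)) U (𝓝 (dist a b)) := by
      rw [tendsto_iff_dist_tendsto_zero]
      apply squeeze_zero' (Eventually.of_forall (fun n => dist_nonneg)) _ hlim0
      filter_upwards [hlarge (dist a o), hlarge (dist b o)] with n hn1 hn2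
      rw [Real.dist_eq]
      exact hf n a b hn1 hn2
    exact tendsto_nhds_unique h1 h2
  have hΦo : Φ o = y := by
    have h1 : Tendsto (fun n => f n o) U (𝓝 y) := by
      have h2 : (fun n => f n o) = fun _ => y := funext hf0
      rw [h2]
      exact tendsto_const_nhds
    exact tendsto_nhds_unique (hΦ o) h1
  have hsurj : ∀ z, ∃ c, Φ c = z := by
    intro z
    have h1 : ∀ n : ℕ, ∃ a, dist z y ≤ (n : ℝ) - 1 → dist a o ≤ n ∧ dist (f n a) z ≤ 1 / ((n : ℝ) + 1) := by
      intro n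
      by_cases h : dist z y ≤ (n : ℝ) - 1
      · obtain ⟨a, ha⟩ := hfs n z h
        exact ⟨a, fun _ => ha⟩
      · exact ⟨o, fun h' => absurd h' h⟩
    choose u hu using h1
    have h2 : ∀ᶠ n in (U : Filter ℕ), dist (u n) o ≤ n ∧ dist (f n (u n)) z ≤ 1 / ((n : ℝ) + 1) := by
      filter_upwards [hlarge (dist z y + 1)] with n hn
      exact hu n (by linarith)
    obtain ⟨c, hc⟩ := hexC u (dist z y + 2) (by
      filter_upwards [h2] with n hn
      have h3 := (abs_le.1 (hf n (u n) o hn.1 (by rw [dist_self]; exact Nat.cast_nonneg n))).1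
      rw [hf0 n] at h3
      have h4 := dist_triangle (f n (u n)) z y
      linarith [h1n n, hn.2])
    refine ⟨c, ?_⟩
    have h3 : Tendsto (fun n => dist (f n c) z) U (𝓝 (dist (Φ c) z)) := (hΦ c).dist tendsto_const_nhds
    have h4 : Tendsto (fun n => dist (f n c) z) U (𝓝 0) := by
      have h5 : Tendsto (fun n => dist (u n) c + (1 / ((n : ℝ) + 1) + 1 / ((n : ℝ) + 1))) U (𝓝 (0 + (0 + 0))) :=
        (tendsto_iff_dist_tendsto_zero.1 hc).add (hlim0.add hlim0)
      rw [add_zero, add_zero] at h5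
      apply squeeze_zero' (Eventually.of_forall (fun n => dist_nonneg)) _ h5
      filter_upwards [h2, hlarge (dist c o)] with n hn hcn
      have h6 := (abs_le.1 (hf n c (u n) hcn hn.1)).2
      have h7 := dist_triangle (f n c) (f n (u n)) z
      rw [dist_comm (u n) c]
      linarith [hn.2]
    exact dist_eq_zero.1 (tendsto_nhds_unique h3 h4)
  choose g hg using hsurj
  exact ⟨IsometryEquiv.mk' Φ g hg (Isometry.of_dist_eq hiso), hΦo⟩

variable {X : Type} [MetricSpace X] {U : Set X}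

/-- every tangent cone at an orbifold point is the flat cone -/
theorem cone_unique (O : OrbifoldOn X U) {x : X} (hx : x ∈ U) [Finite (O.G x)] {Y : Type} [MetricSpace Y] {y : Y}
    (hT : IsTangentCone X x Y y) : ∃ Φ : Cone (O.G x) ≃ᵢ Y, Φ (pr (O.G x) 0) = y := by
  classical
  obtain ⟨hY, r, hr0, hr, hT⟩ := hT
  haveI := hY
  haveI : ProperSpace (Cone (O.G x)) := quo_proper
  apply iso_of_approx
  intro n
  have hn0 : (0 : ℝ) ≤ n := Nat.cast_nonneg n
  set N : ℝ := (n : ℝ) + 1 with hN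
  have hN1 : 1 ≤ N := by linarith
  have hN0 : 0 < N := by linarith
  set e : ℝ := 1 / (2 * N ^ 2) with he
  have he0 : 0 < e := by positivity
  have heN : e * N = 1 / (2 * N) := by rw [he]; field_simp
  have hinv : 1 / N ≤ 1 := by rw [div_le_one hN0]; exact hN1
  have h2N : 1 / (2 * N) = 1 / N / 2 := by rw [div_div, mul_comm]
  have h4N : 1 / (4 * N) = 1 / N / 4 := by rw [div_div, mul_comm]
  have he2 : e ≤ 1 / 2 := by
    have h1 : e ≤ e * N := le_mul_of_one_le_right he0.le hN1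
    linarith
  obtain ⟨δ, hδ, hδr, hd⟩ := chart_dist' O hx he0
  have hnb := fun {v : E5} (hv : ‖v‖ < δ) => norm_bounds O hx hd hv
  have hnhd : O.chart x '' Metric.ball 0 δ ∈ 𝓝 x := by
    apply (O.chart_open x hx _ (Metric.ball_subset_ball hδr) Metric.isOpen_ball).mem_nhds
    exact ⟨0, Metric.mem_ball_self hδ, O.chart_zero x hx⟩
  obtain ⟨η, hη, hηs⟩ := Metric.mem_nhds_iff.1 hnhd
  have hlim : Tendsto (fun j : ℕ => N * r j) atTop (𝓝 (N * 0)) := hr.const_mul N
  rw [mul_zero] at hlim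
  obtain ⟨j, ⟨f, hfx, hfd, hfs⟩, hjη⟩ := ((hT N hN0 (1 / (4 * N)) (by positivity)).and
    (hlim.eventually (gt_mem_nhds (lt_min hη hδ)))).exists
  have hj0 := hr0 j
  generalize r j = ρ at hfd hfs hjη hj0
  have hj1 : N * ρ < η := lt_of_lt_of_le hjη (min_le_left _ _)
  have hj2 : N * ρ < δ := lt_of_lt_of_le hjη (min_le_right _ _)
  have hballδ : ∀ {v : E5}, ‖v‖ < δ → v ∈ B5 (O.rad x) := by
    intro v hv
    rw [mem_ball_zero_iff]
    linarith
  let rep : Cone (O.G x) → E5 := fun c => (pr_surj c).choose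
  have hrep : ∀ c, pr (O.G x) (rep c) = c := fun c => (pr_surj c).choose_spec
  have hrn : ∀ c, ‖rep c‖ = dist c (pr (O.G x) 0) := by
    intro c
    have h1 := cdist_zero (H := O.G x) (rep c)
    rw [hrep c] at h1
    exact h1.symm
  have hsn : ∀ v : E5, ‖ρ • v‖ = ρ * ‖v‖ := fun v => by rw [norm_smul, Real.norm_eq_abs, abs_of_pos hj0]
  have hsmall : ∀ v : E5, ‖v‖ ≤ n → ‖ρ • v‖ < δ := by
    intro v hv
    rw [hsn]
    nlinarith
  have hin : ∀ v : E5, ‖v‖ ≤ n → dist (O.chart x (ρ • v)) x ≤ N * ρ := by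
    intro v hv
    refine (hnb (hsmall v hv)).2.trans ?_
    rw [hsn]
    have h1 : (1 + e) * ‖v‖ ≤ N := by
      have h2 : e * ‖v‖ ≤ e * N := mul_le_mul_of_nonneg_left (by linarith) he0.le
      linarith
    nlinarith
  refine ⟨fun c => f (O.chart x (ρ • rep c)), ?_, ?_, ?_⟩
  · have h1 : rep (pr (O.G x) 0) = 0 := by
      have h2 := hrn (pr (O.G x) 0)
      rw [dist_self] at h2
      exact norm_eq_zero.1 h2
    show f (O.chart x (ρ • rep (pr (O.G x) 0))) = y
    rw [h1, smul_zero, O.chart_zero x hx, hfx]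
  · intro a b ha hb
    rw [← hrn] at ha hb
    show |dist (f (O.chart x (ρ • rep a))) (f (O.chart x (ρ • rep b))) - dist a b| ≤ 1 / N
    have h1 := abs_le.1 (hfd _ _ (hin _ ha) (hin _ hb))
    obtain ⟨h2, g, hg, h3⟩ := hd _ _ (hsmall _ ha) (hsmall _ hb)
    have hmax : e * max ‖ρ • rep a‖ ‖ρ • rep b‖ ≤ 1 / (2 * N) * ρ := by
      rw [← heN, mul_assoc]
      apply mul_le_mul_of_nonneg_left _ he0.le
      apply max_le
      · rw [hsn]
        nlinarith
      · rw [hsn]
        nlinarith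
    have hsc : ∀ k : E5 ≃ₗᵢ[ℝ] E5, ‖ρ • rep a - k (ρ • rep b)‖ = ρ * ‖rep a - k (rep b)‖ := by
      intro k
      rw [map_smul, ← smul_sub, hsn]
    have h4 := cdist_le (H := O.G x) (rep a) (rep b) g hg
    rw [hrep, hrep] at h4
    obtain ⟨k, hk, h5⟩ := cdist_ex (H := O.G x) (rep a) (rep b)
    rw [hrep, hrep] at h5
    have h6 := h2 k hk
    rw [hsc] at h6 h3
    rw [← h5] at h6
    have h7 : dist (O.chart x (ρ • rep a)) (O.chart x (ρ • rep b)) / ρ ≤ dist a b + 1 / (2 * N) := by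
      rw [div_le_iff₀ hj0]
      linarith
    have h8 : dist a b - 1 / (2 * N) ≤ dist (O.chart x (ρ • rep a)) (O.chart x (ρ • rep b)) / ρ := by
      rw [le_div_iff₀ hj0]
      nlinarith
    rw [abs_le]
    rw [h4N] at h1
    rw [h2N] at h7 h8
    have h9 : 0 < 1 / N := by positivity
    constructor
    · linarith [h1.1]
    · linarith [h1.2]
  · intro z hz
    obtain ⟨a, ha, haz⟩ := hfs z (by rw [h4N]; linarith)
    obtain ⟨v', hv', rfl⟩ := hηs (show a ∈ Metric.ball x η from lt_of_le_of_lt ha hj1)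
    rw [mem_ball_zero_iff] at hv'
    have h1 : dist x x ≤ N * ρ := by rw [dist_self]; positivity
    have h2 := (abs_le.1 (hfd _ _ ha h1)).1
    rw [hfx] at h2
    have h3 := dist_triangle (f (O.chart x v')) z y
    have h4 : dist (O.chart x v') x / ρ ≤ n - 1 + 1 / (2 * N) := by
      rw [h4N] at h2 haz
      rw [h2N]
      linarith
    rw [div_le_iff₀ hj0] at h4
    have h5 := (hnb hv').1
    have h6 : ‖v'‖ ≤ ρ * n := by
      have h7 : 1 / (2 * N) ≤ 1 / 2 := by rw [h2N]; linarith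
      have h8 : e * n ≤ 1 / 2 := by
        have h9 : e * n ≤ e * N := mul_le_mul_of_nonneg_left (by linarith) he0.le
        linarith
      have h10 : (1 - e) * ‖v'‖ ≤ (1 - e) * (ρ * n) := by
        have h11 : (n - 1 + 1 / (2 * N)) * ρ ≤ (n - e * n) * ρ := by
          apply mul_le_mul_of_nonneg_right _ hj0.le
          linarith
        nlinarith
      exact le_of_mul_le_mul_left h10 (by linarith)
    have hv : ρ • (ρ⁻¹ • v') = v' := smul_inv_smul₀ hj0.ne' v'
    refine ⟨pr (O.G x) (ρ⁻¹ • v'), ?_, ?_⟩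
    · rw [cdist_zero, norm_smul, norm_inv, Real.norm_eq_abs, abs_of_pos hj0, inv_mul_le_iff₀ hj0]
      exact h6
    · obtain ⟨g, hg⟩ := pr_eq.1 (hrep (pr (O.G x) (ρ⁻¹ • v')))
      have h7 : g.1 (ρ⁻¹ • v') = rep (pr (O.G x) (ρ⁻¹ • v')) := hg
      have h8 : O.chart x (ρ • rep (pr (O.G x) (ρ⁻¹ • v'))) = O.chart x v' := by
        symm
        have h9 : ‖ρ • rep (pr (O.G x) (ρ⁻¹ • v'))‖ = ‖v'‖ := by
          rw [← h7, ← map_smul, g.1.norm_map, hv]
        refine (O.chart_eq x hx _ (hballδ hv') _ (hballδ (by rw [h9]; exact hv'))).2 ⟨g.1, g.2, ?_⟩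
        rw [← h7, ← map_smul, hv]
      show dist (f (O.chart x (ρ • rep (pr (O.G x) (ρ⁻¹ • v'))))) z ≤ 1 / N
      rw [h8]
      refine haz.trans ?_
      rw [h4N]
      have h9 : 0 < 1 / N := by positivity
      linarith

end OL86
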